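import Pool.Agent.Helper13.LT.Cls

/-!
# Covers of kite complexes
-/

set_option autoImplicit false

namespace Pool.Agent.Helper13.LT

open Relation Pool.Agent.Helper29.BA Pool.Agent.Helper29.PA Pool.Agent.Helper3.FJ
  Pool.Agent.Helper3.FJ.Cpx

variable {V : Type} {X : Cpx V} {k : V → ℕ} {G : Type} [Group G] [MulAction G V] {v₀ : V}

/-- The rank of the vertices of the cover. -/
def kc (k : V → ℕ) (p : Cv X v₀) : ℕ := k p.1.1

theorem adj_eq {w x y : Cv X v₀} (hx : (cover X v₀).adj w x) (hy : (cover X v₀).adj w y)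
    (h : x.1.1 = y.1.1) : x = y := by
  refine Cv.ext h ?_
  have h1 : x.1.2 = _ := hx.2
  have h2 : y.1.2 = _ := hy.2
  rw [h1, h2, h]

theorem ec_mul_inv {u v : V} (h : X.adj u v) : X.ec u v * X.ec v u = 1 := X.ec_cocycle.1 _ _ h

/-- Neighbours lift. -/
theorem exists_adj (p : Cv X v₀) {x : V} (h : X.adj p.1.1 x) :
    ∃ q : Cv X v₀, q.1.1 = x ∧ (cover X v₀).adj p q :=
  ⟨⟨(x, p.1.2 * X.ec p.1.1 x), p.2.tail ⟨h, rfl⟩⟩, rfl, h, rfl⟩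

theorem adj_of_tri {u v w : Cv X v₀} (h : X.tri u.1.1 v.1.1 w.1.1) (huv : (cover X v₀).adj u v)
    (huw : (cover X v₀).adj u w) : (cover X v₀).tri u v w ∧ (cover X v₀).adj v w := by
  have h1 : v.1.2 = u.1.2 * X.ec u.1.1 v.1.1 := huv.2
  have h2 : w.1.2 = u.1.2 * X.ec u.1.1 w.1.1 := huw.2
  have h3 : w.1.2 = v.1.2 * X.ec v.1.1 w.1.1 := by
    rw [h2, h1, mul_assoc, triW_snd h]
  exact ⟨⟨h, h1, h3⟩, X.tri_adj _ _ _ (X.tri_rot _ _ _ h), h3⟩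

theorem inc_dn {p v : Cv X v₀} (h : inc (cover X v₀) (kc k) p v) : inc X k p.1.1 v.1.1 :=
  ⟨h.1, h.2.1⟩

/-- Covers of kite complexes. -/
theorem cover_kt (hK : Kt X k) : Kt (cover X v₀) (kc k) := by
  have up : ∀ {p u : Cv X v₀} {x : V}, inc (cover X v₀) (kc k) p u → inc X k p.1.1 x →
      ∃ q : Cv X v₀, q.1.1 = x ∧ inc (cover X v₀) (kc k) p q := by
    intro p u x h hx
    obtain ⟨q, h1, h2⟩ := exists_adj p hx.2
    exact ⟨q, h1, h.1, h2⟩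
  have eqP : ∀ {p q u : Cv X v₀}, inc (cover X v₀) (kc k) p u → inc (cover X v₀) (kc k) q u →
      p.1.1 = q.1.1 → p = q := fun h1 h2 h3 =>
    adj_eq ((cover X v₀).adj_symm _ _ h1.2) ((cover X v₀).adj_symm _ _ h2.2) h3
  have neP : ∀ {p q u : Cv X v₀}, inc (cover X v₀) (kc k) p u → inc (cover X v₀) (kc k) q u →
      p ≠ q → p.1.1 ≠ q.1.1 := fun h1 h2 h3 h4 => h3 (eqP h1 h2 h4)
  refine ⟨fun v => hK.le _, fun u v h => hK.ne _ _ h.1, ?_, ?_, ?_⟩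
  · intro p u v hu hv hne
    exact (adj_of_tri (hK.flag _ _ _ (inc_dn hu) (inc_dn hv) hne) hu.2 hv.2).1
  · intro u v h hu hv
    obtain ⟨p, h1, h2⟩ := hK.diag _ _ h.1 hu hv
    obtain ⟨q, rfl, h4⟩ := exists_adj u (X.adj_symm _ _ h1.2)
    refine ⟨q, ⟨h1.1, (cover X v₀).adj_symm _ _ h4⟩, h2.1, ?_⟩
    have ht := hK.flag _ _ _ h1 h2 (hK.ne _ _ h.1)
    have ht' : X.tri u.1.1 q.1.1 v.1.1 := X.tri_flip _ _ _ ht
    exact (adj_of_tri ht' h4 h).2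
  · refine ⟨?_, ?_, ?_, ?_, ?_, ?_, ?_⟩
    · intro p v hv
      obtain ⟨u, hu, hne⟩ := hK.kc.opp _ _ (inc_dn hv)
      obtain ⟨q, rfl, hq⟩ := up hv hu
      exact ⟨q, hq, hne⟩
    · intro p u v hu hv hne
      obtain ⟨q, hq, hqu, hqv⟩ := hK.kc.two _ _ _ (inc_dn hu) (inc_dn hv) hne
      have hne' := (kap_ne hK (knp hK (inc_dn hu)) (knp hK (inc_dn hv))).1 hne
      obtain ⟨q', rfl, h2⟩ := exists_adj u (X.adj_symm _ _ hqu.2)
      refine ⟨q', fun h => hq (by rw [h]), ⟨hqu.1, (cover X v₀).adj_symm _ _ h2⟩, hqv.1, ?_⟩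
      have h3 := (adj_of_tri (hK.flag _ _ _ (inc_dn hu) (inc_dn hv) hne') hu.2 hv.2).2
      have ht := hK.flag _ _ _ hqu hqv hne'
      exact (adj_of_tri (X.tri_flip _ _ _ ht) h2 h3).2
    · intro p q r u v h h1 h2 h3 h4 h5 h6
      rcases hK.kc.le_two _ _ _ _ _ h (inc_dn h1) (inc_dn h2) (inc_dn h3) (inc_dn h4)
        (inc_dn h5) (inc_dn h6) with h7 | h7 | h7
      · exact Or.inl (eqP h1 h3 h7)
      · exact Or.inr (Or.inl (eqP h1 h5 h7))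
      · exact Or.inr (Or.inr (eqP h3 h5 h7))
    · intro p q v x y h h1 h2 h3 h4 h5 h6 h7 h8
      exact adj_eq h5.2 h7.2 (hK.kc.one _ _ _ _ _ (neP h1 h2 h) (inc_dn h1) (inc_dn h2) h3 h4
        (inc_dn h5) (inc_dn h6) (inc_dn h7) (inc_dn h8))
    · intro r a b c x y z h0 h1 h2 h3 h4 h5 h6 h7 h8 h9 h10 h11 h12 h13 h14 h15
      exact hK.kc.n3 _ _ _ _ _ _ _ h0 h1 h2 h3 (inc_dn h4) (inc_dn h5) (inc_dn h6) (inc_dn h7)
        (inc_dn h8) (inc_dn h9) (inc_dn h10) (inc_dn h11) (inc_dn h12) (neP h4 h5 h13)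
        (neP h5 h6 h14) (neP h6 h4 h15)
    · intro r a b c d x y z w h0 h1 h2 h3 h4 h5 h6 h7 h8 h9 h10 h11 h12 h13 h14 h15 h16 h17 h18
        h19 h20
      rcases hK.kc.n4 _ _ _ _ _ _ _ _ _ h0 h1 h2 h3 h4 (inc_dn h5) (inc_dn h6) (inc_dn h7)
        (inc_dn h8) (inc_dn h9) (inc_dn h10) (inc_dn h11) (inc_dn h12) (inc_dn h13) (inc_dn h14)
        (inc_dn h15) (inc_dn h16) (neP h5 h6 h17) (neP h6 h7 h18) (neP h7 h8 h19)
        (neP h8 h5 h20) with h | h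
      · exact Or.inl (eqP h5 h7 h)
      · exact Or.inr (eqP h6 h8 h)
    · intro r a b c d e x y z w v h0 h1 h2 h3 h4 h5 h6 h7 h8 h9 h10 h11 h12 h13 h14 h15 h16 h17
        h18 h19 h20 h21 h22 h23 h24 h25
      exact hK.kc.n5 _ _ _ _ _ _ _ _ _ _ _ h0 h1 h2 h3 h4 h5 (inc_dn h6) (inc_dn h7)
        (inc_dn h8) (inc_dn h9) (inc_dn h10) (inc_dn h11) (inc_dn h12) (inc_dn h13) (inc_dn h14)
        (inc_dn h15) (inc_dn h16) (inc_dn h17) (inc_dn h18) (inc_dn h19) (inc_dn h20)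
        (neP h6 h7 h21) (neP h7 h8 h22) (neP h8 h9 h23) (neP h9 h10 h24) (neP h10 h6 h25)

/-- The action on the cover. -/
theorem cover_actsK (hA : ActsK G X k) : ActsK (GG hA.acts v₀) (cover X v₀) (kc k) := by
  refine ⟨cover_acts hA.acts, fun g v => hA.inv g.1.right v.1.1, fun g x y h1 h2 h3 => ?_⟩
  exact adj_eq h2 h1 (hA.typ g.1.right x.1.1 y.1.1 h1.1 h2.1 h3)

theorem ActsK.sub (hA : ActsK G X k) (T : Subgroup G) : ActsK T X k :=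
  ⟨⟨fun g u v h => hA.acts.1 g.1 u v h, fun g u v w h => hA.acts.2 g.1 u v w h⟩,
    fun g v => hA.inv g.1 v, fun g x y h1 h2 h3 => hA.typ g.1 x y h1 h2 h3⟩

end Pool.Agent.Helper13.LT
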