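import Pool.Agent.Helper13.LT.Defs

/-!
# Subcomplexes and covers of kite complexes, colimits
-/

set_option autoImplicit false

namespace Pool.Agent.Helper13.LT

open Relation Pool.Agent.Helper29.BA Pool.Agent.Helper29.PA Pool.Agent.Helper3.FJ
  Pool.Agent.Helper3.FJ.Cpx

variable {V : Type} {X : Cpx V} {k : V → ℕ} {G : Type} [Group G] [MulAction G V]

theorem knp (hK : Kt X k) {p v : V} (h : inc X k p v) : k v ≠ 1 := fun h' =>
  hK.ne _ _ h.2 (h.1.trans h'.symm)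

theorem k02 (hK : Kt X k) {v : V} (h : k v ≠ 1) : k v = 0 ∨ k v = 2 := by
  have := hK.le v
  omega

theorem kap_ne (hK : Kt X k) {u v : V} (hu : k u ≠ 1) (hv : k v ≠ 1) :
    kap k u ≠ kap k v ↔ k u ≠ k v := by
  rcases k02 hK hu with h1 | h1 <;> rcases k02 hK hv with h2 | h2 <;> simp [kap, h1, h2]

/-- One of two opposite vertices is a chamber. -/
theorem chamber_of (hK : Kt X k) {u v : V} (hu : k u ≠ 1) (hv : k v ≠ 1) (h : k u ≠ k v) :
    k u = 0 ∨ k v = 0 := by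
  rcases k02 hK hu with h1 | h1
  · exact Or.inl h1
  · rcases k02 hK hv with h2 | h2
    · exact Or.inr h2
    · exact (h (h1.trans h2.symm)).elim

theorem Kt.adj_of_inc (hK : Kt X k) {p u v : V} (hu : inc X k p u) (hv : inc X k p v)
    (h : k u ≠ k v) : X.adj u v := X.tri_adj _ _ _ (X.tri_rot _ _ _ (hK.flag p u v hu hv h))

/-- Closed finite sets of vertices. -/
def Cl (X : Cpx V) (k : V → ℕ) (s : Finset V) : Prop :=
  (∀ c ∈ s, k c = 0 → ∀ x, X.adj c x → x ∈ s) ∧ ∀ p ∈ s, k p = 1 → ∃ c ∈ s, k c = 0 ∧ X.adj p c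

open Classical in
theorem Cl.union {s t : Finset V} (hs : Cl X k s) (ht : Cl X k t) : Cl X k (s ∪ t) := by
  refine ⟨fun c hc h0 x hx => ?_, fun p hp h1 => ?_⟩
  · rcases Finset.mem_union.1 hc with h | h
    · exact Finset.mem_union_left _ (hs.1 c h h0 x hx)
    · exact Finset.mem_union_right _ (ht.1 c h h0 x hx)
  · rcases Finset.mem_union.1 hp with h | h
    · obtain ⟨c, h2, h3⟩ := hs.2 p h h1
      exact ⟨c, Finset.mem_union_left _ h2, h3⟩
    · obtain ⟨c, h2, h3⟩ := ht.2 p h h1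
      exact ⟨c, Finset.mem_union_right _ h2, h3⟩

open Classical in
theorem exists_cl (hK : Kt X k) (hfin : ∀ c, k c = 0 → {x | X.adj c x}.Finite)
    (hpan : ∀ p, k p = 1 → ∃ c, k c = 0 ∧ X.adj p c) (t : Finset V) :
    ∃ s : Finset V, t ⊆ s ∧ Cl X k s := by
  have hex : ∀ p, ∃ c, k p = 1 → k c = 0 ∧ X.adj p c := by
    intro p
    by_cases h : k p = 1
    · obtain ⟨c, hc⟩ := hpan p h
      exact ⟨c, fun _ => hc⟩
    · exact ⟨p, fun h' => (h h').elim⟩
  choose c hc using hex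
  have hex2 : ∀ x, ∃ N : Finset V, k x = 0 → ∀ y, X.adj x y ↔ y ∈ N := by
    intro x
    by_cases h : k x = 0
    · exact ⟨(hfin x h).toFinset, fun _ y => by simp⟩
    · exact ⟨∅, fun h' => (h h').elim⟩
  choose N hN using hex2
  let s₁ : Finset V := t ∪ (t.filter fun p => k p = 1).image c
  let s : Finset V := s₁ ∪ (s₁.filter fun x => k x = 0).biUnion N
  refine ⟨s, fun x hx => Finset.mem_union_left _ (Finset.mem_union_left _ hx), ?_, ?_⟩
  · intro x hx h0 y hy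
    rcases Finset.mem_union.1 hx with h | h
    · refine Finset.mem_union_right _ (Finset.mem_biUnion.2 ⟨x, ?_, (hN x h0 y).1 hy⟩)
      exact Finset.mem_filter.2 ⟨h, h0⟩
    · obtain ⟨z, hz, hxz⟩ := Finset.mem_biUnion.1 h
      have hz0 := (Finset.mem_filter.1 hz).2
      have := (hN z hz0 x).2 hxz
      exact (hK.ne _ _ this (hz0.trans h0.symm)).elim
  · intro p hp h1
    rcases Finset.mem_union.1 hp with h | h
    · rcases Finset.mem_union.1 h with h | h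
      · refine ⟨c p, Finset.mem_union_left _ (Finset.mem_union_right _
          (Finset.mem_image.2 ⟨p, Finset.mem_filter.2 ⟨h, h1⟩, rfl⟩)), hc p h1⟩
      · obtain ⟨z, hz, rfl⟩ := Finset.mem_image.1 h
        have hz1 := (Finset.mem_filter.1 hz).2
        have := (hc z hz1).1
        omega
    · obtain ⟨z, hz, hpz⟩ := Finset.mem_biUnion.1 h
      have hz0 := (Finset.mem_filter.1 hz).2
      have := (hN z hz0 p).2 hpz
      exact ⟨z, Finset.mem_union_left _ (Finset.mem_filter.1 hz).1, hz0, X.adj_symm _ _ this⟩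

/-- A finitely generated group is the colimit of the groups of the lifts to the universal covers of
the cocompact subcomplexes given by closed sets. -/
theorem colim_cl {C : ∀ (G : Type) [Group G], Prop} (hC : ClosedClass C) (hA : X.Acts G)
    (hX : X.SimplyConn) (S : Finset G) (hS : Subgroup.closure (S : Set G) = ⊤)
    (hcl : ∀ t : Finset V, ∃ s : Finset V, t ⊆ s ∧ Cl X k s)
    (hGG : ∀ (v₀ : V) (s : Finset V), v₀ ∈ s → Cl X k s → C (GG (sb_acts hA s) v₀)) : C G := by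
  classical
  obtain ⟨v₀⟩ := hX.1
  obtain ⟨s₀, hv₀, hs₀⟩ := exists_orbit_reach hA.1 hX.2.1 S hS v₀
  let I : Type := {s : Finset V // s₀ ⊆ s ∧ Cl X k s}
  have : IsDirectedOrder I :=
    ⟨fun a b => ⟨⟨a.1 ∪ b.1, a.2.1.trans Finset.subset_union_left, a.2.2.union b.2.2⟩,
      Finset.subset_union_left, Finset.subset_union_right⟩⟩
  obtain ⟨s₁, hs₁, hs₁'⟩ := hcl s₀
  have : Nonempty I := ⟨⟨s₁, hs₁, hs₁'⟩⟩
  refine hC.colimit I (fun s => GG (sb_acts hA s.1) v₀)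
    (fun s t h => mapGG v₀ (sb_sub h) (sb_acts hA s.1) (sb_acts hA t.1)) ?_ G
    (fun s => prG v₀ (sb_acts hA s.1)) ?_ ?_ ?_ ?_
  · intro i j k h h' x
    exact mapGG_mapGG v₀ _ _ _ _ _ x
  · intro i j h x
    exact prG_mapGG v₀ _ _ _ x
  · intro γ
    obtain ⟨φ, hφ⟩ := lift_reach (X := X.sb G s₁) (hs₀ s₁ hs₁ γ)
    exact ⟨⟨s₁, hs₁, hs₁'⟩, ⟨⟨φ, γ⟩, (mem_GG_mk v₀ _).2 hφ⟩, rfl⟩
  · intro i x hx1
    rw [prG_apply] at hx1
    have hx := x.2
    have h1 : ReflTransGen (adjW (X.sb G i.1)) (v₀, 1) (v₀, x.1.left) := by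
      have := (mem_GG_mk v₀ (sb_acts hA i.1) (φ := x.1.left) (γ := x.1.right)).1 hx
      rwa [hx1, one_smul] at this
    have h2 := map_reach (sb_sub_self i.1) h1
    simp only [map_one] at h2
    have h3 := reach_eq_one hX h2
    obtain ⟨w, hw⟩ := QuotientGroup.mk_surjective x.1.left
    rw [← hw, mapPhi_mk, QuotientGroup.eq_one_iff] at h3
    obtain ⟨t, ht⟩ := exists_normalClosure (G := G) h3
    obtain ⟨t', htt', ht'⟩ := hcl t
    refine ⟨⟨i.1 ∪ t', i.2.1.trans Finset.subset_union_left, i.2.2.union ht'⟩,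
      Finset.subset_union_left, ?_⟩
    refine mapGG_eq_one v₀ _ _ _ x ?_ hx1
    rw [← hw, mapPhi_mk, QuotientGroup.eq_one_iff]
    exact Subgroup.normalClosure_mono
      (relc_mono (sb_sub (htt'.trans Finset.subset_union_right))) ht
  · intro i
    exact hGG v₀ i.1 (i.2.1 hv₀) i.2.2

/-! ### Subcomplexes -/

theorem inc_sb {s : Finset V} {p v : V} : inc (X.sb G s) k p v ↔
    inc X k p v ∧ ∃ g : G, g • p ∈ s ∧ g • v ∈ s :=
  ⟨fun h => ⟨⟨h.1, h.2.1⟩, h.2.2⟩, fun h => ⟨h.1.1, h.1.2, h.2⟩⟩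

theorem sb_actsK (hA : ActsK G X k) (s : Finset V) : ActsK G (X.sb G s) k :=
  ⟨sb_acts hA.acts s, hA.inv, fun g x y h h' h'' => hA.typ g x y h.1 h'.1 h''⟩

theorem Cl.nbr (hA : ActsK G X k) {s : Finset V} (hs : Cl X k s) {c x : V} {g : G}
    (hc : g • c ∈ s) (h0 : k c = 0) (hx : X.adj c x) : g • x ∈ s :=
  hs.1 _ hc (by rw [hA.inv, h0]) _ (hA.acts.1 g _ _ hx)

/-- Subcomplexes given by closed sets. -/
theorem sb_kt (hK : Kt X k) (hA : ActsK G X k) {s : Finset V} (hs : Cl X k s) :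
    Kt (X.sb G s) k := by
  have hsub : ∀ {p v : V}, inc (X.sb G s) k p v → inc X k p v := fun h => (inc_sb.1 h).1
  -- a chamber and a vertex on a panel
  have key : ∀ {p c v : V}, inc (X.sb G s) k p c → k c = 0 → inc X k p v → k v ≠ 0 →
      inc (X.sb G s) k p v := by
    intro p c v h h0 hv hv0
    obtain ⟨h1, g, h2, h3⟩ := inc_sb.1 h
    refine inc_sb.2 ⟨hv, g, h2, hs.nbr hA h3 h0 ?_⟩
    exact hK.adj_of_inc h1 hv (by rw [h0]; exact Ne.symm hv0)
  have hdiag : ∀ {c v p : V}, (∃ g : G, g • c ∈ s ∧ g • v ∈ s) → k c = 0 → inc X k p c →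
      inc X k p v → inc (X.sb G s) k p c ∧ inc (X.sb G s) k p v := by
    rintro c v p ⟨g, h1, h2⟩ h0 hc hv
    have h3 := hs.nbr hA h1 h0 (X.adj_symm _ _ hc.2)
    exact ⟨inc_sb.2 ⟨hc, g, h3, h1⟩, inc_sb.2 ⟨hv, g, h3, h2⟩⟩
  refine ⟨hK.le, fun u v h => hK.ne u v h.1, ?_, ?_, ?_⟩
  · intro p u v hu hv hne
    have hu' := hsub hu
    have hv' := hsub hv
    refine ⟨hK.flag p u v hu' hv' hne, ?_⟩
    rcases chamber_of hK (knp hK hu') (knp hK hv') hne with h0 | h0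
    · obtain ⟨-, g, h1, h2⟩ := inc_sb.1 hu
      exact ⟨g, h1, h2, hs.nbr hA h2 h0 (hK.adj_of_inc hu' hv' hne)⟩
    · obtain ⟨-, g, h1, h2⟩ := inc_sb.1 hv
      exact ⟨g, h1, hs.nbr hA h2 h0 (hK.adj_of_inc hv' hu' (Ne.symm hne)), h2⟩
  · intro u v h hu hv
    obtain ⟨p, h1, h2⟩ := hK.diag u v h.1 hu hv
    rcases chamber_of hK hu hv (hK.ne _ _ h.1) with h0 | h0
    · obtain ⟨g, h3, h4⟩ := h.2
      exact ⟨p, hdiag ⟨g, h3, h4⟩ h0 h1 h2⟩
    · obtain ⟨g, h3, h4⟩ := h.2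
      exact ⟨p, (hdiag ⟨g, h4, h3⟩ h0 h2 h1).symm⟩
  · refine ⟨?_, ?_, ?_, ?_, ?_, ?_, ?_⟩
    · intro p v hv
      have hv' := hsub hv
      obtain ⟨u, hu, hne⟩ := hK.kc.opp p v hv'
      have hne' := (kap_ne hK (knp hK hu) (knp hK hv')).1 hne
      rcases k02 hK (knp hK hv') with h0 | h2
      · exact ⟨u, key hv h0 hu (by rw [← h0]; exact hne'), hne⟩
      · obtain ⟨-, g, h3, h4⟩ := inc_sb.1 hv
        obtain ⟨c, hc1, hc2, hc3⟩ := hs.2 _ h3 (by rw [hA.inv]; exact hv.1)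
        have h5 : X.adj p (g⁻¹ • c) := by
          have := hA.acts.1 g⁻¹ _ _ hc3
          rwa [inv_smul_smul] at this
        have h6 : k (g⁻¹ • c) = 0 := by rw [hA.inv, hc2]
        have h7 : inc X k p (g⁻¹ • c) := ⟨hv.1, h5⟩
        refine ⟨g⁻¹ • c, inc_sb.2 ⟨h7, g, h3, by rw [smul_inv_smul]; exact hc1⟩, ?_⟩
        rw [kap_ne hK (knp hK h7) (knp hK hv'), h6, h2]
        norm_num
    · intro p u v hu hv hne
      have hu' := hsub hu
      have hv' := hsub hv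
      have hne' := (kap_ne hK (knp hK hu') (knp hK hv')).1 hne
      obtain ⟨q, hq, hqu, hqv⟩ := hK.kc.two p u v hu' hv' hne
      rcases chamber_of hK (knp hK hu') (knp hK hv') hne' with h0 | h0
      · obtain ⟨-, g, h1, h2⟩ := inc_sb.1 hu
        exact ⟨q, hq, hdiag ⟨g, h2, hs.nbr hA h2 h0 (hK.adj_of_inc hu' hv' hne')⟩ h0 hqu hqv⟩
      · obtain ⟨-, g, h1, h2⟩ := inc_sb.1 hv
        exact ⟨q, hq, (hdiag ⟨g, h2, hs.nbr hA h2 h0
          (hK.adj_of_inc hv' hu' (Ne.symm hne'))⟩ h0 hqv hqu).symm⟩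
    · intro p q r u v h h1 h2 h3 h4 h5 h6
      exact hK.kc.le_two p q r u v h (hsub h1) (hsub h2) (hsub h3) (hsub h4) (hsub h5) (hsub h6)
    · intro p q v x y h h1 h2 h3 h4 h5 h6 h7 h8
      exact hK.kc.one p q v x y h (hsub h1) (hsub h2) h3 h4 (hsub h5) (hsub h6) (hsub h7)
        (hsub h8)
    · intro r a b c x y z h0 h1 h2 h3 h4 h5 h6 h7 h8 h9 h10 h11 h12 h13 h14
      exact hK.kc.n3 r a b c x y z h0 h1 h2 h3 (hsub h4) (hsub h5) (hsub h6) (hsub h7) (hsub h8)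
        (hsub h9) (hsub h10) (hsub h11) (hsub h12) h13 h14
    · intro r a b c d x y z w h0 h1 h2 h3 h4 h5 h6 h7 h8 h9 h10 h11 h12 h13 h14 h15 h16 h17 h18
        h19 h20
      exact hK.kc.n4 r a b c d x y z w h0 h1 h2 h3 h4 (hsub h5) (hsub h6) (hsub h7) (hsub h8)
        (hsub h9) (hsub h10) (hsub h11) (hsub h12) (hsub h13) (hsub h14) (hsub h15) (hsub h16)
        h17 h18 h19 h20
    · intro r a b c d e x y z w v h0 h1 h2 h3 h4 h5 h6 h7 h8 h9 h10 h11 h12 h13 h14 h15 h16 h17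
        h18 h19 h20 h21 h22 h23 h24
      exact hK.kc.n5 r a b c d e x y z w v h0 h1 h2 h3 h4 h5 (hsub h6) (hsub h7) (hsub h8)
        (hsub h9) (hsub h10) (hsub h11) (hsub h12) (hsub h13) (hsub h14) (hsub h15) (hsub h16)
        (hsub h17) (hsub h18) (hsub h19) (hsub h20) h21 h22 h23 h24

end Pool.Agent.Helper13.LT
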