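import Pool.Agent.Helper3.FJ.Met

/-!
# Kite complexes

Definitions for the Farrell-Jones conjecture for Artin groups of large type.

A kite complex has vertices of rank 0 (chambers), 1 (panels) and 2 (residues); its cells are the
kites: a chamber `c` and a residue `r` which are adjacent lie on exactly two common panels. The link
of a panel is complete bipartite, the link of a chamber is a simple graph (vertices the panels,
edges the residues), the link of a residue is a graph of girth at least six (vertices the panels,
edges the chambers).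
-/

set_option autoImplicit false

namespace Pool.Agent.Helper13.LT

open Relation Pool.Agent.Helper29.BA Pool.Agent.Helper29.PA Pool.Agent.Helper3.FJ

/-- Kite complexes: `V` are the chambers and residues (`κ v = true` for the residues), `P` the
panels, `I p v`: the vertex `v` lies on the panel `p`. -/
structure KC {V P : Type} (I : P → V → Prop) (κ : V → Bool) : Prop where
  /-- both sides of a panel are nonempty -/
  opp : ∀ p v, I p v → ∃ u, I p u ∧ κ u ≠ κ v
  /-- opposite vertices on a panel lie on another common panel -/
  two : ∀ p u v, I p u → I p v → κ u ≠ κ v → ∃ q, q ≠ p ∧ I q u ∧ I q v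
  /-- opposite vertices lie on at most two common panels -/
  le_two : ∀ p q r u v, κ u ≠ κ v → I p u → I p v → I q u → I q v → I r u → I r v →
    p = q ∨ p = r ∨ q = r
  /-- the links are simple graphs -/
  one : ∀ p q v x y, p ≠ q → I p v → I q v → κ x ≠ κ v → κ y ≠ κ v → I p x → I q x → I p y →
    I q y → x = y
  /-- no closed walks of length 3 in the links of the residues -/
  n3 : ∀ r a b c x y z, κ r = true → κ x = false → κ y = false → κ z = false →
    I a r → I b r → I c r → I a x → I b x → I b y → I c y → I c z → I a z →
    a ≠ b → b ≠ c → c ≠ a → False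
  /-- closed walks of length 4 in the links of the residues are degenerate -/
  n4 : ∀ r a b c d x y z w, κ r = true → κ x = false → κ y = false → κ z = false → κ w = false →
    I a r → I b r → I c r → I d r → I a x → I b x → I b y → I c y → I c z → I d z → I d w → I a w →
    a ≠ b → b ≠ c → c ≠ d → d ≠ a → a = c ∨ b = d
  /-- no closed walks of length 5 in the links of the residues -/
  n5 : ∀ r a b c d e x y z w v, κ r = true → κ x = false → κ y = false → κ z = false →
    κ w = false → κ v = false → I a r → I b r → I c r → I d r → I e r → I a x → I b x → I b y →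
    I c y → I c z → I d z → I d w → I e w → I e v → I a v →
    a ≠ b → b ≠ c → c ≠ d → d ≠ e → e ≠ a → False

section

variable {V P : Type} (I : P → V → Prop) (κ : V → Bool)

/-- Adjacent vertices: opposite vertices on a common panel. -/
def Ad (u v : V) : Prop := κ u ≠ κ v ∧ ∃ p, I p u ∧ I p v

/-- Connected and simply connected kite complexes with the base point `v₀`. -/
structure SC (v₀ : V) : Prop where
  conn : ∀ p v, I p v → ReflTransGen (Ad I κ) v₀ v
  sc : ∀ (H : Type) [Group H] (c : V → V → H), (∀ u v, Ad I κ u v → c u v * c v u = 1) →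
    (∀ p u u' v v', I p u → I p u' → I p v → I p v' → κ u = κ u' → κ v = κ v' → κ u ≠ κ v →
      c u v * c v u' = c u v' * c v' u') →
    ∃ g : V → H, ∀ u v, Ad I κ u v → c u v = (g u)⁻¹ * g v

/-- The panel `p` is low at the vertex `v`: its gate `gt p` lies two levels below `v`. -/
def Low (gt : P → V) (v : V) (p : P) : Prop := I p v ∧ gt p ≠ v ∧ κ (gt p) = κ v

/-- Levels: `ℓ` is the level of the vertices, `gt p` the gate (lowest vertex) of the panel `p`. -/
structure Lev (v₀ : V) (ℓ : V → ℕ) (gt : P → V) : Prop where
  /-- the gate of a panel, the vertices opposite to it and the others on its side -/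
  gate : ∀ p v, I p v → I p (gt p) ∧ (v = gt p ∨ (κ v ≠ κ (gt p) ∧ ℓ v = ℓ (gt p) + 1) ∨
    (κ v = κ (gt p) ∧ ℓ v = ℓ (gt p) + 2))
  /-- vertices other than the base point have lower neighbours -/
  low : ∀ p v, I p v → v ≠ v₀ → ∃ q, I q v ∧ gt q ≠ v
  base : ∀ p, I p v₀ → gt p = v₀
  /-- the lower neighbours of a vertex -/
  conf : ∀ v u u', Ad I κ u v → Ad I κ u' v → ℓ u < ℓ v → ℓ u' < ℓ v → u ≠ u' →
    (∃ p, Low I κ gt v p ∧ I p u ∧ I p u') ∨
      (κ v = true ∧ ∃ p q z, p ≠ q ∧ Low I κ gt v p ∧ Low I κ gt v q ∧ I p u ∧ I q u' ∧
        I p z ∧ I q z ∧ κ z ≠ κ v)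

variable (FP : P → Prop) (FV : V → Prop)

/-- Fixed panels and vertices. -/
structure Fxd : Prop where
  up : ∀ p v, I p v → κ v = true → FP p → FV v
  dn : ∀ p v, I p v → κ v = false → FV v → FP p
  near : ∀ r c p q, κ r = true → κ c = false → p ≠ q → I p r → I q r → I p c → I q c →
    FP p → FP q → FV c
  mid : ∀ r c c' p m q, κ r = true → κ c = false → κ c' = false → p ≠ q → I p r → I m r → I q r →
    I p c → I m c → I m c' → I q c' → FP p → FP q → FP m

/-- `T` is a set of incidences (the edges of a spanning tree), `E v x w` means that the kite of `v`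
and `w` on the panel `x` is designated for the incidence of `v` and `x`. -/
structure Spn (T : V → P → Prop) (r : V × P → V × P → Prop) (E : V → P → V → Prop) : Prop where
  wf : WellFounded r
  T_inc : ∀ v x, T v x → I x v
  E_inc : ∀ v x w, E v x w → I x v ∧ I x w ∧ κ v ≠ κ w
  not : ∀ v x w, E v x w → ¬ T v x
  ex : ∀ v x, I x v → ¬ T v x → ∃ w, E v x w
  un : ∀ v x w w', E v x w → E v x w' → w = w'
  lower : ∀ v x w y, E v x w → y ≠ x → I y v → I y w →
    (T w x ∨ r (w, x) (v, x)) ∧ (T v y ∨ r (v, y) (v, x)) ∧ (T w y ∨ r (w, y) (v, x))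
  all : ∀ v w x y, κ v ≠ κ w → x ≠ y → I x v → I x w → I y v → I y w →
    E v x w ∨ E w x v ∨ E v y w ∨ E w y v
  fix : ∀ v x w, E v x w → FP x → FV w

end

/-! ### Complexes -/

section

variable {V : Type}

/-- The vertex `v` lies on the panel `p`. -/
def inc (X : Cpx V) (k : V → ℕ) (p v : V) : Prop := k p = 1 ∧ X.adj p v

/-- The side of a vertex. -/
def kap (k : V → ℕ) (v : V) : Bool := decide (k v = 2)

/-- `X` is a kite complex, `k` is the rank function. -/
structure Kt (X : Cpx V) (k : V → ℕ) : Prop where
  le : ∀ v, k v ≤ 2
  ne : ∀ u v, X.adj u v → k u ≠ k v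
  flag : ∀ p u v, inc X k p u → inc X k p v → k u ≠ k v → X.tri p u v
  diag : ∀ u v, X.adj u v → k u ≠ 1 → k v ≠ 1 → ∃ p, inc X k p u ∧ inc X k p v
  kc : KC (inc X k) (kap k)

variable (G : Type) [Group G] [MulAction G V]

/-- `G` acts on the kite complex and preserves the ranks; it is not possible that a vertex is
adjacent to two vertices of higher rank which are in one orbit (this holds for actions which
preserve the types). -/
structure ActsK (X : Cpx V) (k : V → ℕ) : Prop where
  acts : X.Acts G
  inv : ∀ (g : G) v, k (g • v) = k v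
  typ : ∀ (g : G) x y, X.adj x y → X.adj x (g • y) → k x < k y → g • y = y

/-- The conditions on the action of the group `R`: stabilizers of edges are trivial or equal to the
stabilizers of both ends, and the nontrivial elements of the stabilizers of the residues move the
vertices of the links which they do not fix by more than 10. -/
structure NiceK (X : Cpx V) (k : V → ℕ) (R : Type) [Group R] [MulAction R V] : Prop
    extends ActsK R X k where
  kt : Kt X k
  rigid : ∀ x y, X.adj x y → Cpx.Fx R x y → ∀ r : R, r • x = x → r • y = y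
  far : ∀ (v : V) (r : R), r • v = v → k v = 2 → ∀ n ≤ 10, ∀ y : ℕ → V,
    (∀ i < n, X.tri v (y i) (y (i + 1))) → (∀ i ≤ n, ¬ Cpx.Fx R v (y i)) → y n = r • y 0 → r = 1

end

/-! ### Artin groups -/

section

/-- The product `x * y * x * ...` of `n` factors. -/
def alt {G : Type} [Group G] (x y : G) : ℕ → G
  | 0 => 1
  | n + 1 => x * alt y x n

/-- The Artin group of a Coxeter matrix: for all `s` and `t` with `M s t ≠ 0` (where `0` stands for
infinity) the relation `s t s ... = t s t ...` with `M s t` factors on both sides. -/
def artinRels {S : Type} (M : CoxeterMatrix S) : Set (FreeGroup S) :=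
  {w | ∃ s t : S, M s t ≠ 0 ∧
    w = alt (FreeGroup.of s) (FreeGroup.of t) (M s t) *
      (alt (FreeGroup.of t) (FreeGroup.of s) (M s t))⁻¹}

/-- The Artin group of a Coxeter matrix. -/
abbrev ArtinGroup {S : Type} (M : CoxeterMatrix S) : Type := PresentedGroup (artinRels M)

/-- Large type: no two generators commute. -/
def IsLarge {S : Type} (M : CoxeterMatrix S) : Prop := ∀ s t, M s t ≠ 2

end

end Pool.Agent.Helper13.LT
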