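import Pool.Agent.Helper13.LT.Defs

/-!
# Kite complexes: the local structure below a vertex (statements)
-/

set_option autoImplicit false

namespace Pool.Agent.Helper13.LT

section

variable {V P : Type} (I : P → V → Prop) (κ : V → Bool) (ℓ : V → ℕ) (gt : P → V)

/-- `u` is a lower neighbour of `v`. -/
def Dn (u v : V) : Prop := Ad I κ u v ∧ ℓ u < ℓ v

/-- The panel `x` lies one level below the vertex `v`. -/
def Mid (v : V) (x : P) : Prop := I x v ∧ gt x ≠ v ∧ κ (gt x) ≠ κ v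

/-- Horizontal position: the panels `a` and `b` of the residue `v` hang on different low panels. -/
def HzT (a : P) (v : V) (b : P) : Prop :=
  κ v = true ∧ ∃ p q, p ≠ q ∧ Low I κ gt v p ∧ Low I κ gt v q ∧ Mid I κ gt v a ∧ Mid I κ gt v b ∧
    I p (gt a) ∧ I q (gt b)

/-- The local structure of the levels. -/
structure Loc : Prop where
  dn_gt : ∀ u v x, Dn I κ ℓ u v → I x u → I x v → gt x = u ∨ Low I κ gt v x
  dn_lev : ∀ u v, Dn I κ ℓ u v → ℓ u + 1 = ℓ v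
  low_dn : ∀ u v x, Low I κ gt v x → I x u → κ u ≠ κ v → Dn I κ ℓ u v
  low_ex : ∀ v x, Low I κ gt v x → ∃ u, I x u ∧ κ u ≠ κ v
  mid_dn : ∀ v x, Mid I κ gt v x → Dn I κ ℓ (gt x) v ∧ I x (gt x)
  low1 : ∀ v p q, κ v = false → Low I κ gt v p → Low I κ gt v q → p = q
  low2 : ∀ v p q, Low I κ gt v p → Low I κ gt v q → p ≠ q → ∃ z, I p z ∧ I q z ∧ κ z ≠ κ v
  low3 : ∀ v p q s, Low I κ gt v p → Low I κ gt v q → Low I κ gt v s → p = q ∨ p = s ∨ q = s
  dn_low : ∀ u v p, Low I κ gt v p → Dn I κ ℓ u v → ∃ q, Low I κ gt v q ∧ I q u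
  dn_one : ∀ u u' v, (∀ p, ¬ Low I κ gt v p) → Dn I κ ℓ u v → Dn I κ ℓ u' v → u = u'
  chain : ¬ ∃ (a : ℕ → P) (v : ℕ → V), ∀ i, HzT I κ gt (a i) (v i) (a (i + 1)) ∧ v i ≠ v (i + 1)

end

end Pool.Agent.Helper13.LT
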