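import Pool.Agent.Helper13.LT.Cov
import Pool.Agent.Helper83.LT.Met
import Pool.Agent.Helper3.LT.Fin

/-!
# Groups acting on simply connected kite complexes
-/

set_option autoImplicit false

namespace Pool.Agent.Helper13.LT

open Relation Pool.Agent.Helper29.BA Pool.Agent.Helper29.PA Pool.Agent.Helper3.FJ
  Pool.Agent.Helper3.FJ.Cpx

variable {V : Type} {X : Cpx V} {k : V → ℕ} {G : Type} [Group G] [MulAction G V]

/-- Groups with a homomorphism to the integers which is injective on the stabilizers. -/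
theorem int_genK {C : ∀ (G : Type) [Group G], Prop} (hC : CatClass C) (hE : ExtClass C) (hK : Kt X k)
    (hfin : ∀ c, k c = 0 → {x | X.adj c x}.Finite)
    (hpan : ∀ p, k p = 1 → ∃ c, k c = 0 ∧ X.adj p c) (hX : X.SimplyConn) (hA : ActsK G X k)
    (f : G →* Multiplicative ℤ)
    (hf : ∀ (v : V) (g : G), g • v = v → f g = 1 → g = 1) : C G := by
  refine of_fg hC.toClosedClass hA.acts fun T S hS hAT => ?_
  have hT := hA.sub T
  refine colim_cl (k := k) hC.toClosedClass hAT hX S hS (exists_cl hK hfin hpan)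
    fun v₀ s hv₀ hs => ?_
  refine Pool.Agent.Helper3.LT.int_memK hE hC (cover_kt (sb_kt hK hT hs)) cover_simplyConn (cover_actsK (sb_actsK hT s))
    (cover_cocompact (sb_acts hAT s) s hv₀ (fun u v h => h.2) (fun u v w h => h.2))
    ((f.comp T.subtype).comp (prG v₀ (sb_acts hAT s))) fun p x hx h1 => ?_
  exact cover_inj (f.comp T.subtype) x p hx h1 fun g hg hg' => Subtype.ext (hf _ g.1 hg hg')

/-- Groups with a homomorphism to a group of the class which is injective on the stabilizers. -/
theorem map_genK {C : ∀ (G : Type) [Group G], Prop} (hC : CatClass C) (hE : ExtClass C)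
    (hK : Kt X k) (hfin : ∀ c, k c = 0 → {x | X.adj c x}.Finite)
    (hpan : ∀ p, k p = 1 → ∃ c, k c = 0 ∧ X.adj p c) (hX : X.SimplyConn) (hA : ActsK G X k)
    {Q : Type} [Group Q] (f : G →* Q) (hQ : C Q)
    (hf : ∀ (v : V) (g : G), g • v = v → f g = 1 → g = 1) : C G := by
  refine hE.ext G Q f hQ fun q => ?_
  obtain ⟨D, hD⟩ : ∃ D : Subgroup G, D = (Subgroup.zpowers q).comap f := ⟨_, rfl⟩
  have hD' : ∀ d ∈ D, f d ∈ Subgroup.zpowers q := fun d hd => by
    rw [hD] at hd
    exact hd
  rw [← hD]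
  have hAD := hA.sub D
  by_cases hfin' : IsOfFinOrder q
  · refine Pool.Agent.Helper83.LT.properK hC hX hK hAD fun v => ?_
    have h2 : Finite (Subgroup.zpowers q) := finite_zpowers.2 hfin'
    refine Finite.of_injective (β := Subgroup.zpowers q)
      (fun d : MulAction.stabilizer D v => ⟨f d.1.1, hD' _ d.1.2⟩) ?_
    intro a b hab
    have h3 : f a.1.1 = f b.1.1 := congrArg Subtype.val hab
    have h4 : (b.1.1)⁻¹ * a.1.1 = 1 := by
      refine hf v _ ?_ (by rw [map_mul, map_inv, h3, inv_mul_cancel])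
      have h5 : a.1.1 • v = v := a.2
      have h6 : b.1.1 • v = v := b.2
      rw [mul_smul, h5, inv_smul_eq_iff, h6]
    exact Subtype.ext (Subtype.ext (inv_mul_eq_one.1 h4).symm)
  · have hinj : ∀ m n : ℤ, q ^ m = q ^ n → m = n := by
      intro m n hmn
      by_contra hne
      refine hfin' (isOfFinOrder_iff_zpow_eq_one.2 ⟨m - n, sub_ne_zero.2 hne, ?_⟩)
      rw [zpow_sub, hmn, mul_inv_cancel]
    choose e he using fun d : D => hD' d.1 d.2
    have he' : ∀ d : D, q ^ e d = f d.1 := he
    let φ : D →* Multiplicative ℤ :=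
      { toFun := fun d => Multiplicative.ofAdd (e d)
        map_one' := by
          rw [ofAdd_eq_one]
          exact hinj _ _ (by rw [he', zpow_zero, OneMemClass.coe_one, map_one])
        map_mul' := fun a b => by
          rw [← ofAdd_add]
          congr 1
          exact hinj _ _ (by rw [he', zpow_add, he', he', Subgroup.coe_mul, map_mul]) }
    refine int_genK hC hE hK hfin hpan hX hAD φ fun v d hd h1 => Subtype.ext (hf v d.1 hd ?_)
    have h2 : e d = 0 := by
      have : Multiplicative.ofAdd (e d) = 1 := h1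
      rwa [ofAdd_eq_one] at this
    rw [← he', h2, zpow_zero]

/-- **Main theorem.** Groups `G` such that for each finite set of vertices there is a homomorphism
to a group of the class which is injective on the stabilizers of these vertices. -/
theorem mainK {C : ∀ (G : Type) [Group G], Prop} (hC : CatClass C) (hE : ExtClass C)
    (hK : Kt X k) (hfin : ∀ c, k c = 0 → {x | X.adj c x}.Finite)
    (hpan : ∀ p, k p = 1 → ∃ c, k c = 0 ∧ X.adj p c) (hA : ActsK G X k) (hX : X.SimplyConn)
    (hQ : ∀ K : Finset V, ∃ (Q : Type) (_ : Group Q) (f : G →* Q), C Q ∧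
      ∀ v ∈ K, ∀ g : G, g • v = v → f g = 1 → g = 1) : C G := by
  refine of_fg hC.toClosedClass hA.acts fun T S hS hAT => ?_
  have hT := hA.sub T
  refine colim_cl (k := k) hC.toClosedClass hAT hX S hS (exists_cl hK hfin hpan)
    fun v₀ s hv₀ hs => ?_
  obtain ⟨Q, _, f, hCQ, hf⟩ := hQ s
  have hK' := sb_kt hK hT hs
  have hreach : ∀ p : Cv (X.sb T s) v₀, ∃ γ : T, γ • p.1.1 ∈ s := by
    intro p
    refine reach_mem (X := X) (G := T) ⟨1, by simpa using hv₀⟩ (u := v₀) ?_
    have h2 := p.2
    have key : ∀ q : V × (X.sb T s).Phi, ReflTransGen (adjW (X.sb T s)) (v₀, 1) q →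
        ReflTransGen (X.kadj T s) v₀ q.1 := by
      intro q hq
      induction hq with
      | refl => exact ReflTransGen.refl
      | tail _ h4 ih => exact ih.tail h4.1
    exact key _ h2
  refine map_genK hC hE (cover_kt hK') (fun p hp => ?_) (fun p hp => ?_) cover_simplyConn
    (cover_actsK (sb_actsK hT s))
    ((f.comp T.subtype).comp (prG v₀ (sb_acts hAT s))) hCQ fun p x hx h1 => ?_
  · -- finitely many neighbours
    have h3 : {x | (X.sb T s).adj p.1.1 x}.Finite :=
      (hfin p.1.1 hp).subset fun x hx => hx.1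
    refine Set.Finite.of_finite_image (f := fun q : Cv (X.sb T s) v₀ => q.1.1)
      (h3.subset ?_) ?_
    · rintro _ ⟨q, hq, rfl⟩
      exact hq.1
    · intro q hq q' hq' h
      exact adj_eq hq hq' h
  · -- panels have chambers
    obtain ⟨γ, hγ⟩ := hreach p
    obtain ⟨c, hc1, hc2, hc3⟩ := hs.2 _ hγ (by rw [hT.inv]; exact hp)
    have h5 : X.adj p.1.1 (γ⁻¹ • c) := by
      have := hT.acts.1 γ⁻¹ _ _ hc3
      rwa [inv_smul_smul] at this
    have h6 : (X.sb T s).adj p.1.1 (γ⁻¹ • c) :=
      ⟨h5, γ, hγ, by rw [smul_inv_smul]; exact hc1⟩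
    obtain ⟨q, h7, h8⟩ := exists_adj p h6
    refine ⟨q, ?_, h8⟩
    rw [kc, h7, hT.inv, hc2]
  · refine cover_inj (f.comp T.subtype) x p hx h1 fun g hg hg' => ?_
    obtain ⟨γ, hγ⟩ := hreach p
    have h3 : γ.1 * g.1 * γ.1⁻¹ = 1 := by
      refine hf _ hγ _ ?_ ?_
      · change (γ.1 * g.1 * γ.1⁻¹) • γ.1 • p.1.1 = γ.1 • p.1.1
        rw [mul_smul, inv_smul_smul, mul_smul]
        congr 1
      · have h4 : f g.1 = 1 := hg'
        rw [map_mul, map_mul, h4, mul_one, ← map_mul, mul_inv_cancel, map_one]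
    apply Subtype.ext
    have : g.1 = γ.1⁻¹ * (γ.1 * g.1 * γ.1⁻¹) * γ.1 := by group
    rw [this, h3]
    simp

end Pool.Agent.Helper13.LT
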