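import Pool.Agent.Helper13.LT.Loc

/-!
# Kite complexes: roots and selected panels
-/

set_option autoImplicit false

namespace Pool.Agent.Helper13.LT

section

variable {V P : Type} (I : P → V → Prop) (κ : V → Bool) (ℓ : V → ℕ) (gt : P → V) (FP : P → Prop)

/-- Horizontal position of two fixed panels with unfixed low panels. -/
def HzF (a : P) (v : V) (b : P) : Prop :=
  HzT I κ gt a v b ∧ FP a ∧ FP b ∧ ∀ p, Low I κ gt v p → ¬ FP p

/-- Selected panels `sel v x` and roots `rt v`. -/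
structure Sl (sel : V → P → Prop) (rt : V → P) : Prop where
  mid : ∀ v x, sel v x → Mid I κ gt v x ∧ κ v = true
  inj : ∀ v v' x, sel v x → sel v' x → v = v'
  wf : WellFounded fun v' v => ∃ x, sel v' x ∧ I x v ∧ v ≠ v' ∧ κ v = true
  two : ∀ v x, sel v x → ∃ p q, p ≠ q ∧ Low I κ gt v p ∧ Low I κ gt v q ∧ I p (gt x) ∧
    Mid I κ gt v (rt v) ∧ I q (gt (rt v))
  fixed : ∀ v x y, sel v x → I y v → gt y ≠ v → FP y → y = rt v ∨ sel v y
  root : ∀ v x, I x v → gt x ≠ v → I (rt v) v ∧ gt (rt v) ≠ v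
  rootF : ∀ v x, (¬ ∃ y, sel v y) → I x v → gt x ≠ v → FP x → FP (rt v)
  hz : ∀ v x, (¬ ∃ y, sel v y) → ¬ HzF I κ gt FP x v (rt v)

variable {I κ ℓ gt FP}

theorem HzT.symm {a b : P} {v : V} (h : HzT I κ gt a v b) : HzT I κ gt b v a := by
  obtain ⟨h1, p, q, h2, h3, h4, h5, h6, h7, h8⟩ := h
  exact ⟨h1, q, p, h2.symm, h4, h3, h6, h5, h8, h7⟩

theorem HzF.symm {a b : P} {v : V} (h : HzF I κ gt FP a v b) : HzF I κ gt FP b v a :=
  ⟨h.1.symm, h.2.2.1, h.2.1, h.2.2.2⟩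

variable (I κ gt FP) in
/-- `d'` continues `d`. -/
def Stp (d' d : P × V × P) : Prop :=
  HzF I κ gt FP d.1 d.2.1 d.2.2 ∧ HzF I κ gt FP d'.1 d'.2.1 d'.2.2 ∧ d.2.2 = d'.1 ∧ d.2.1 ≠ d'.2.1

theorem stp_wf (hO : Loc I κ ℓ gt) : WellFounded (Stp I κ gt FP) := by
  rw [wellFounded_iff_isEmpty_descending_chain]
  refine ⟨fun ⟨f, hf⟩ => hO.chain ⟨fun i => (f i).1, fun i => (f i).2.1, fun i => ?_⟩⟩
  obtain ⟨h1, h2, h3, h4⟩ := hf i
  refine ⟨?_, h4⟩
  change HzT I κ gt (f i).1 (f i).2.1 (f (i + 1)).1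
  rw [← h3]
  exact h1.1

/-- A residue in fixed horizontal position has no other fixed panels. -/
theorem HzF.eq {V P : Type} {I : P → V → Prop} {κ : V → Bool} {ℓ : V → ℕ} {gt : P → V}
    {FP : P → Prop} {FV : V → Prop} (hO : Loc I κ ℓ gt) (hF : Fxd I κ FP FV) {a b x : P} {v : V}
    (h : HzF I κ gt FP a v b) (hx : I x v) (hxv : gt x ≠ v) (hxF : FP x) : x = a ∨ x = b := by
  obtain ⟨⟨h1, p, q, h2, h3, h4, h5, h6, h7, h8⟩, h9, h10, h11⟩ := h
  have hκ : κ (gt x) ≠ κ v := fun h => h11 x ⟨hx, hxv, h⟩ hxF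
  have hm : Mid I κ gt v x := ⟨hx, hxv, hκ⟩
  obtain ⟨h12, h13⟩ := hO.mid_dn v x hm
  obtain ⟨s, h14, h15⟩ := hO.dn_low _ _ p h3 h12
  have hf : ∀ {y : P}, Mid I κ gt v y → κ (gt y) = false := by
    intro y hy
    have := hy.2.2
    rw [h1] at this
    simpa using this
  have hcase : s = p ∨ s = q := by
    rcases hO.low3 v s p q h14 h3 h4 with h | h | h
    · exact Or.inl h
    · exact Or.inr h
    · exact (h2 h).elim
  rcases hcase with rfl | rfl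
  · left
    by_contra hxa
    exact h11 s h14 (hF.mid v (gt x) (gt a) x s a h1 (hf hm) (hf h5) hxa hx h14.1 h5.1 h13 h15 h7
      (hO.mid_dn v a h5).2 hxF h9)
  · right
    by_contra hxb
    exact h11 s h14 (hF.mid v (gt x) (gt b) x s b h1 (hf hm) (hf h6) hxb hx h14.1 h6.1 h13 h15 h8
      (hO.mid_dn v b h6).2 hxF h10)

/-- Existence of roots and selected panels. -/
theorem exists_sl [Nonempty P] {FV : V → Prop} (hO : Loc I κ ℓ gt) (hF : Fxd I κ FP FV)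
    (hK : KC I κ) : ∃ sel rt, Sl I κ gt FP sel rt := by
  classical
  have hwf : IsWellFounded (P × V × P) (Stp I κ gt FP) := ⟨stp_wf hO⟩
  let rk : P → V → P → Ordinal := fun a v b => IsWellFounded.rank (Stp I κ gt FP) (a, v, b)
  have hrk : ∀ a v b v' c, HzF I κ gt FP a v b → HzF I κ gt FP b v' c → v ≠ v' →
      rk b v' c < rk a v b := fun a v b v' c h1 h2 h3 =>
    IsWellFounded.rank_lt_of_rel (r := Stp I κ gt FP) ⟨h1, h2, rfl, h3⟩
  -- the directions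
  have hex : ∀ v, ∃ d : P × P, (∃ a b, HzF I κ gt FP a v b) → HzF I κ gt FP d.1 v d.2 ∧
      rk d.2 v d.1 ≤ rk d.1 v d.2 := by
    intro v
    by_cases h : ∃ a b, HzF I κ gt FP a v b
    · obtain ⟨a, b, hab⟩ := h
      rcases le_total (rk b v a) (rk a v b) with h1 | h1
      · exact ⟨(a, b), fun _ => ⟨hab, h1⟩⟩
      · exact ⟨(b, a), fun _ => ⟨hab.symm, h1⟩⟩
    · exact ⟨Classical.arbitrary _, fun h' => (h h').elim⟩
  choose d hd using hex
  -- the roots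
  have hex2 : ∀ v, ∃ y : P, (∃ x, I x v ∧ gt x ≠ v) → (I y v ∧ gt y ≠ v) ∧
      ((∃ a b, HzF I κ gt FP a v b) → y = (d v).2) ∧
      ((¬ ∃ a b, HzF I κ gt FP a v b) → ∀ x, I x v → gt x ≠ v → FP x → FP y) := by
    intro v
    by_cases h : ∃ a b, HzF I κ gt FP a v b
    · obtain ⟨h1, -⟩ := hd v h
      obtain ⟨⟨-, p, q, -, -, -, -, h6, -, -⟩, -⟩ := h1
      exact ⟨(d v).2, fun _ => ⟨⟨h6.1, h6.2.1⟩, fun _ => rfl, fun h' => (h' h).elim⟩⟩
    · by_cases h1 : ∃ x, I x v ∧ gt x ≠ v ∧ FP x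
      · obtain ⟨x, h2, h3, h4⟩ := h1
        exact ⟨x, fun _ => ⟨⟨h2, h3⟩, fun h' => (h h').elim, fun _ _ _ _ _ => h4⟩⟩
      · by_cases h2 : ∃ x, I x v ∧ gt x ≠ v
        · obtain ⟨x, h3⟩ := h2
          exact ⟨x, fun _ => ⟨h3, fun h' => (h h').elim, fun _ y hy hy' hy'' =>
            (h1 ⟨y, hy, hy', hy''⟩).elim⟩⟩
        · exact ⟨Classical.arbitrary _, fun h' => (h2 h').elim⟩
  choose rt hrt using hex2
  have hsel : ∀ v x, ((∃ a b, HzF I κ gt FP a v b) ∧ x = (d v).1) → HzF I κ gt FP x v (rt v) ∧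
      rk (rt v) v x ≤ rk x v (rt v) := by
    rintro v x ⟨h1, rfl⟩
    obtain ⟨h2, h3⟩ := hd v h1
    have h4 : Mid I κ gt v (d v).1 := by
      obtain ⟨⟨-, p, q, -, -, -, h5, -⟩, -⟩ := h2
      exact h5
    have h5 := (hrt v ⟨_, h4.1, h4.2.1⟩).2.1 h1
    rw [h5]
    exact ⟨h2, h3⟩
  refine ⟨fun v x => (∃ a b, HzF I κ gt FP a v b) ∧ x = (d v).1, rt, ?_, ?_, ?_, ?_, ?_, ?_, ?_, ?_⟩
  · intro v x h
    obtain ⟨⟨h1, p, q, -, -, -, h5, -⟩, -⟩ := (hsel v x h).1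
    exact ⟨h5, h1⟩
  · intro v v' x h h'
    by_contra hne
    obtain ⟨h1, h2⟩ := hsel v x h
    obtain ⟨h3, h4⟩ := hsel v' x h'
    have e1 := hrk _ _ _ _ _ h1.symm h3 hne
    have e2 := hrk _ _ _ _ _ h3.symm h1 (Ne.symm hne)
    exact absurd ((e1.trans_le h2).trans (e2.trans_le h4)) (lt_irrefl _)
  · rw [wellFounded_iff_isEmpty_descending_chain]
    refine ⟨fun ⟨f, hf⟩ => ?_⟩
    choose x hx1 hx2 hx3 hx4 using hf
    -- `f (i + 1)` selects `x i`, which lies on `f i`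
    refine hO.chain ⟨fun i => x i, fun i => f (i + 1), fun i => ⟨?_, hx3 (i + 1)⟩⟩
    have h1 := (hsel _ _ (hx1 i)).1
    have h2 := (hsel _ _ (hx1 (i + 1))).1
    have h3 : Mid I κ gt (f (i + 2)) (x (i + 1)) := by
      obtain ⟨⟨-, p, q, -, -, -, h5, -⟩, -⟩ := h2
      exact h5
    have h3' := (hO.mid_dn _ _ h3)
    -- `x (i + 1)` is a mid panel of `f (i + 1)`
    have h4 : κ (gt (x (i + 1))) ≠ κ (f (i + 1)) := by
      have e1 := h3.2.2
      have e2 : κ (f (i + 2)) = true := h2.1.1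
      rw [e2] at e1
      rw [hx4 (i + 1)]
      exact e1
    have h5 : gt (x (i + 1)) ≠ f (i + 1) := fun h => h4 (by rw [h])
    have h6 : x (i + 1) ≠ x i := by
      intro h
      have h7 := hx1 i
      rw [← h] at h7
      have h8 := hx1 (i + 1)
      have h9 := hsel _ _ h7
      have h10 := hsel _ _ h8
      refine hx3 (i + 1) ?_
      by_contra hne
      have e1 := hrk _ _ _ _ _ h9.1.symm h10.1 hne
      have e2 := hrk _ _ _ _ _ h10.1.symm h9.1 (Ne.symm hne)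
      exact absurd ((e1.trans_le h9.2).trans (e2.trans_le h10.2)) (lt_irrefl _)
    rcases h1.eq hO hF (hx2 (i + 1)) h5 h2.2.1 with h7 | h7
    · exact (h6 h7).elim
    · change HzT I κ gt (x i) (f (i + 1)) (x (i + 1))
      rw [h7]
      exact h1.1
  · intro v x h
    obtain ⟨⟨-, p, q, h2, h3, h4, h5, h6, h7, h8⟩, -⟩ := (hsel v x h).1
    exact ⟨p, q, h2, h3, h4, h7, h6, h8⟩
  · intro v x y h hy1 hy2 hy3
    rcases (hsel v x h).1.eq hO hF hy1 hy2 hy3 with h1 | h1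
    · right
      exact ⟨h.1, h1.trans h.2⟩
    · exact Or.inl h1
  · intro v x h1 h2
    exact (hrt v ⟨x, h1, h2⟩).1
  · intro v x h1 h2 h3 h4
    refine (hrt v ⟨x, h2, h3⟩).2.2 (fun h5 => h1 ⟨(d v).1, h5, rfl⟩) x h2 h3 h4
  · intro v x h1 h2
    exact h1 ⟨(d v).1, ⟨_, _, h2⟩, rfl⟩

end

end Pool.Agent.Helper13.LT
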