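import Pool.Agent.Helper13.LT.Sel

/-!
# Kite complexes: spanning trees and designated kites
-/

set_option autoImplicit false

namespace Pool.Agent.Helper13.LT

section

variable {V P : Type} {I : P → V → Prop} {κ : V → Bool} {ℓ : V → ℕ} {gt : P → V} {v₀ : V}
  {FP : P → Prop} {FV : V → Prop} {sel : V → P → Prop} {rt : V → P}

theorem bool_eq {a b c : Bool} (h : a ≠ c) (h' : b ≠ c) : a = b := by
  cases a <;> cases b <;> cases c <;> simp_all

theorem dn_or (hL : Lev I κ v₀ ℓ gt) {u v : V} (h : Ad I κ u v) : Dn I κ ℓ u v ∨ Dn I κ ℓ v u := by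
  have h' := h
  obtain ⟨hne, p, hu, hv⟩ := h
  obtain ⟨hg, hu'⟩ := hL.gate p u hu
  obtain ⟨-, hv'⟩ := hL.gate p v hv
  have hs : Ad I κ v u := ⟨Ne.symm hne, p, hv, hu⟩
  rcases hu' with h1 | ⟨h1, h2⟩ | ⟨h1, h2⟩
  · rcases hv' with h3 | ⟨h3, h4⟩ | ⟨h3, h4⟩
    · exact (hne (by rw [h1, h3])).elim
    · exact Or.inl ⟨h', by rw [h4, h1]; omega⟩
    · exact (hne (by rw [h3, h1])).elim
  · rcases hv' with h3 | ⟨h3, h4⟩ | ⟨h3, h4⟩
    · exact Or.inr ⟨hs, by rw [h2, h3]; omega⟩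
    · exact (hne (bool_eq h1 h3)).elim
    · exact Or.inl ⟨h', by omega⟩
  · rcases hv' with h3 | ⟨h3, h4⟩ | ⟨h3, h4⟩
    · exact (hne (by rw [h1, h3])).elim
    · exact Or.inr ⟨hs, by omega⟩
    · exact (hne (by rw [h1, h3])).elim

variable (I κ ℓ gt rt) in
/-- The lower neighbour `w` of `v` on the low panel `p` lies in the direction of the root. -/
def Tw (v : V) (p : P) (w : V) : Prop :=
  I (rt v) w ∨ ∃ q, Low I κ gt v q ∧ q ≠ p ∧ I q w ∧ ¬ ∃ w', Dn I κ ℓ w' v ∧ I p w' ∧ I (rt v) w'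

variable (I gt sel rt) in
/-- The edges of the tree. -/
def TT (v : V) (x : P) : Prop :=
  I x v ∧ ((gt x ≠ v ∧ (x = rt v ∨ sel v x)) ∨ (gt x = v ∧ ¬ ∃ v', sel v' x))

variable (I κ ℓ gt sel rt) in
/-- Designated kites at the upper vertex. -/
def EU (v : V) (x : P) (w : V) : Prop :=
  Dn I κ ℓ w v ∧ I x v ∧ I x w ∧ x ≠ rt v ∧ ¬ sel v x ∧
    (gt x = w ∨ (Low I κ gt v x ∧ Tw I κ ℓ gt rt v x w))

variable (I κ ℓ gt sel rt) in
/-- Designated kites. -/
def EE (v : V) (x : P) (w : V) : Prop := EU I κ ℓ gt sel rt v x w ∨ (gt x = v ∧ sel w x)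

theorem Dn.kne {u v : V} (h : Dn I κ ℓ u v) : κ u ≠ κ v := h.1.1

theorem Dn.ne {u v : V} (h : Dn I κ ℓ u v) : u ≠ v := fun h' => h.kne (by rw [h'])

theorem EU.gt_ne (hO : Loc I κ ℓ gt) {v w : V} {x : P} (h : EU I κ ℓ gt sel rt v x w) : gt x ≠ v := by
  rcases hO.dn_gt _ _ _ h.1 h.2.2.1 h.2.1 with h1 | h1
  · rw [h1]
    exact h.1.ne
  · exact h1.2.1

section sl

variable (hK : KC I κ) (hL : Lev I κ v₀ ℓ gt) (hO : Loc I κ ℓ gt)
  (hS : Sl I κ gt FP sel rt)

include hK in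
/-- Opposite vertices lie on at most two panels. -/
theorem three {u v : V} {x y z : P} (h : κ u ≠ κ v) (h1 : I x u) (h2 : I x v) (h3 : I y u)
    (h4 : I y v) (h5 : I z u) (h6 : I z v) (hxy : x ≠ y) : z = x ∨ z = y := by
  rcases hK.le_two x y z u v h h1 h2 h3 h4 h5 h6 with h7 | h7 | h7
  · exact (hxy h7).elim
  · exact Or.inl h7.symm
  · exact Or.inr h7.symm

include hO in
/-- The gate of a mid panel is the only lower neighbour on it. -/
theorem mid_unique {u v : V} {x : P} (hx : I x v) (hg : κ (gt x) ≠ κ v) (h : Dn I κ ℓ u v)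
    (hu : I x u) : gt x = u := by
  rcases hO.dn_gt _ _ _ h hu hx with h1 | h1
  · exact h1
  · exact (hg h1.2.2).elim

include hO in
/-- At a vertex without low panels the gates of all panels agree. -/
theorem mid_of {v : V} {x : P} (hx : I x v) (hg : gt x ≠ v) : Low I κ gt v x ∨
    (Mid I κ gt v x ∧ Dn I κ ℓ (gt x) v ∧ I x (gt x)) := by
  by_cases h : κ (gt x) = κ v
  · exact Or.inl ⟨hx, hg, h⟩
  · exact Or.inr ⟨⟨hx, hg, h⟩, hO.mid_dn _ _ ⟨hx, hg, h⟩⟩

include hK hO hS in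
/-- Existence of the lower neighbour in the direction of the root. -/
theorem exists_tw {v : V} {x : P} (hx : Low I κ gt v x) (hr : x ≠ rt v) :
    ∃ w, Dn I κ ℓ w v ∧ I x w ∧ Tw I κ ℓ gt rt v x w := by
  by_cases h : ∃ w', Dn I κ ℓ w' v ∧ I x w' ∧ I (rt v) w'
  · obtain ⟨w, h1, h2, h3⟩ := h
    exact ⟨w, h1, h2, Or.inl h3⟩
  · obtain ⟨hr1, hr2⟩ := hS.root v x hx.1 hx.2.1
    rcases mid_of hO hr1 hr2 with h1 | ⟨h1, h2, h3⟩
    · obtain ⟨z, hz1, hz2, hz3⟩ := hO.low2 v x (rt v) hx h1 hr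
      exact (h ⟨z, hO.low_dn _ _ _ hx hz1 hz3, hz1, hz2⟩).elim
    · obtain ⟨q, hq1, hq2⟩ := hO.dn_low _ _ x hx h2
      have hqx : q ≠ x := by
        rintro rfl
        exact h ⟨_, h2, hq2, h3⟩
      obtain ⟨z, hz1, hz2, hz3⟩ := hO.low2 v x q hx hq1 (Ne.symm hqx)
      exact ⟨z, hO.low_dn _ _ _ hx hz1 hz3, hz1, Or.inr ⟨q, hq1, hqx, hz2, h⟩⟩

include hK hO hS in
/-- Uniqueness of the lower neighbour in the direction of the root. -/
theorem tw_unique {v w w' : V} {x : P} (hx : Low I κ gt v x) (hr : x ≠ rt v)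
    (h1 : Dn I κ ℓ w v) (h2 : I x w) (h3 : Tw I κ ℓ gt rt v x w)
    (h1' : Dn I κ ℓ w' v) (h2' : I x w') (h3' : Tw I κ ℓ gt rt v x w') : w = w' := by
  have hr1 := (hS.root v x hx.1 hx.2.1).1
  rcases h3 with h3 | ⟨q, h4, h5, h6, h7⟩
  · rcases h3' with h3' | ⟨q, h4, h5, h6, h7⟩
    · exact hK.one x (rt v) v w w' hr hx.1 hr1 h1.kne h1'.kne h2 h3 h2' h3'
    · exact (h7 ⟨w, h1, h2, h3⟩).elim
  · rcases h3' with h3' | ⟨q', h4', h5', h6', -⟩
    · exact (h7 ⟨w', h1', h2', h3'⟩).elim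
    · have : q = q' := by
        rcases hO.low3 v x q q' hx h4 h4' with h | h | h
        · exact (h5 h.symm).elim
        · exact (h5' h.symm).elim
        · exact h
      subst this
      exact hK.one x q v w w' (Ne.symm h5) hx.1 h4.1 h1.kne h1'.kne h2 h6 h2' h6'

include hK hO hS in
theorem ee_un {v w w' : V} {x : P} (h : EE I κ ℓ gt sel rt v x w)
    (h' : EE I κ ℓ gt sel rt v x w') : w = w' := by
  rcases h with h | h
  · rcases h' with h' | h'
    · rcases h.2.2.2.2.2 with h1 | h1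
      · rcases h'.2.2.2.2.2 with h2 | h2
        · exact h1.symm.trans h2
        · exact (h.1.kne (by rw [← h1]; exact h2.1.2.2)).elim
      · rcases h'.2.2.2.2.2 with h2 | h2
        · exact (h'.1.kne (by rw [← h2]; exact h1.1.2.2)).elim
        · exact tw_unique hK hO hS h1.1 h.2.2.2.1 h.1 h.2.2.1 h1.2 h'.1 h'.2.2.1 h2.2
    · exact (h.gt_ne hO h'.1).elim
  · rcases h' with h' | h'
    · exact (h'.gt_ne hO h.1).elim
    · exact hS.inj _ _ _ h.2 h'.2

include hO hS in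
theorem ee_not {v w : V} {x : P} (h : EE I κ ℓ gt sel rt v x w) : ¬ TT I gt sel rt v x := by
  rintro ⟨h1, h2 | h2⟩
  · rcases h with h | h
    · rcases h2.2 with h3 | h3
      · exact h.2.2.2.1 h3
      · exact h.2.2.2.2.1 h3
    · exact h2.1 h.1
  · rcases h with h | h
    · exact h.gt_ne hO h2.1
    · exact h2.2 ⟨_, h.2⟩

include hK hO hS in
theorem ee_ex {v : V} {x : P} (hx : I x v) (hT : ¬ TT I gt sel rt v x) :
    ∃ w, EE I κ ℓ gt sel rt v x w := by
  by_cases h : gt x = v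
  · by_cases h1 : ∃ v', sel v' x
    · obtain ⟨v', h1⟩ := h1
      exact ⟨v', Or.inr ⟨h, h1⟩⟩
    · exact (hT ⟨hx, Or.inr ⟨h, h1⟩⟩).elim
  · have h1 : x ≠ rt v := fun h1 => hT ⟨hx, Or.inl ⟨h, Or.inl h1⟩⟩
    have h2 : ¬ sel v x := fun h2 => hT ⟨hx, Or.inl ⟨h, Or.inr h2⟩⟩
    rcases mid_of hO hx h with h3 | ⟨h3, h4, h5⟩
    · obtain ⟨w, h4, h5, h6⟩ := exists_tw hK hO hS h3 h1
      exact ⟨w, Or.inl ⟨h4, hx, h5, h1, h2, Or.inr ⟨h3, h6⟩⟩⟩
    · exact ⟨gt x, Or.inl ⟨h4, hx, h5, h1, h2, Or.inl rfl⟩⟩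

include hO hS in
theorem ee_inc {v w : V} {x : P} (h : EE I κ ℓ gt sel rt v x w) : I x v ∧ I x w ∧ κ v ≠ κ w := by
  rcases h with h | ⟨rfl, h⟩
  · exact ⟨h.2.1, h.2.2.1, Ne.symm h.1.kne⟩
  · obtain ⟨h1, -⟩ := hS.mid _ _ h
    obtain ⟨h2, h3⟩ := hO.mid_dn _ _ h1
    exact ⟨h3, h1.1, h2.kne⟩

include hK hO hS in
/-- Every kite is designated. -/
theorem ee_all' {v w : V} {x y : P} (hd : Dn I κ ℓ w v) (hxy : x ≠ y) (h1 : I x v) (h2 : I x w)
    (h3 : I y v) (h4 : I y w) : EE I κ ℓ gt sel rt v x w ∨ EE I κ ℓ gt sel rt w x v ∨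
      EE I κ ℓ gt sel rt v y w ∨ EE I κ ℓ gt sel rt w y v := by
  -- a mid panel which is not the root
  have key : ∀ {x : P}, I x v → I x w → gt x = w → x ≠ rt v →
      EE I κ ℓ gt sel rt v x w ∨ EE I κ ℓ gt sel rt w x v := by
    intro x h1 h2 h5 h6
    by_cases h7 : sel v x
    · exact Or.inr (Or.inr ⟨h5, h7⟩)
    · exact Or.inl (Or.inl ⟨hd, h1, h2, h6, h7, Or.inl h5⟩)
  -- a low panel towards the root
  have key2 : ∀ {x : P}, I x w → Low I κ gt v x → x ≠ rt v → Tw I κ ℓ gt rt v x w →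
      EE I κ ℓ gt sel rt v x w := by
    intro x h2 h5 h6 h7
    refine Or.inl ⟨hd, h5.1, h2, h6, fun h8 => ?_, Or.inr ⟨h5, h7⟩⟩
    exact (hS.mid _ _ h8).1.2.2 h5.2.2
  rcases hO.dn_gt _ _ _ hd h2 h1 with h5 | h5
  · by_cases h6 : x = rt v
    · rcases hO.dn_gt _ _ _ hd h4 h3 with h7 | h7
      · rcases key h3 h4 h7 (fun h8 => hxy (h6.trans h8.symm)) with h8 | h8
        · exact Or.inr (Or.inr (Or.inl h8))
        · exact Or.inr (Or.inr (Or.inr h8))
      · refine Or.inr (Or.inr (Or.inl (key2 h4 h7 (fun h8 => hxy (h6.trans h8.symm))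
          (Or.inl ?_))))
        rw [← h6]
        exact h2
    · rcases key h1 h2 h5 h6 with h8 | h8
      · exact Or.inl h8
      · exact Or.inr (Or.inl h8)
  · rcases hO.dn_gt _ _ _ hd h4 h3 with h7 | h7
    · by_cases h6 : y = rt v
      · refine Or.inl (key2 h2 h5 (fun h8 => hxy (h8.trans h6.symm)) (Or.inl ?_))
        rw [← h6]
        exact h4
      · rcases key h3 h4 h7 h6 with h8 | h8
        · exact Or.inr (Or.inr (Or.inl h8))
        · exact Or.inr (Or.inr (Or.inr h8))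
    · -- both panels are low
      by_cases h8 : x = rt v
      · refine Or.inr (Or.inr (Or.inl (key2 h4 h7 (fun h9 => hxy (h8.trans h9.symm))
          (Or.inl ?_))))
        rw [← h8]
        exact h2
      by_cases h9 : y = rt v
      · refine Or.inl (key2 h2 h5 h8 (Or.inl ?_))
        rw [← h9]
        exact h4
      obtain ⟨hr1, hr2⟩ := hS.root v x h5.1 h5.2.1
      rcases mid_of hO hr1 hr2 with h10 | ⟨h10, h11, h12⟩
      · rcases hO.low3 v x y (rt v) h5 h7 h10 with h | h | h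
        · exact (hxy h).elim
        · exact (h8 h).elim
        · exact (h9 h).elim
      · obtain ⟨q, hq1, hq2⟩ := hO.dn_low _ _ x h5 h11
        have hnot : ∀ {x y : P}, x ≠ y → x ≠ rt v → y ≠ rt v → I x v → I y v → I x (gt (rt v)) →
            ¬ ∃ w', Dn I κ ℓ w' v ∧ I y w' ∧ I (rt v) w' := by
          rintro x y hxy hx hy hxv hyv hxg ⟨w', h13, h14, h15⟩
          have h16 := mid_unique hO hr1 h10.2.2 h13 h15
          rw [← h16] at h14
          rcases three hK h11.kne hxg hxv h14 hyv h12 hr1 hxy with h | h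
          · exact hx h.symm
          · exact hy h.symm
        have hq : q = x ∨ q = y := by
          rcases hO.low3 v q x y hq1 h5 h7 with h | h | h
          · exact Or.inl h
          · exact Or.inr h
          · exact (hxy h).elim
        rcases hq with rfl | rfl
        · exact Or.inr (Or.inr (Or.inl (key2 h4 h7 h9
            (Or.inr ⟨_, h5, hxy, h2, hnot hxy h8 h9 h1 h3 hq2⟩))))
        · exact Or.inl (key2 h2 h5 h8
            (Or.inr ⟨_, h7, Ne.symm hxy, h4, hnot (Ne.symm hxy) h9 h8 h3 h1 hq2⟩))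

include hK hL hO hS in
theorem ee_all {v w : V} {x y : P} (hne : κ v ≠ κ w) (hxy : x ≠ y) (h1 : I x v) (h2 : I x w)
    (h3 : I y v) (h4 : I y w) : EE I κ ℓ gt sel rt v x w ∨ EE I κ ℓ gt sel rt w x v ∨
      EE I κ ℓ gt sel rt v y w ∨ EE I κ ℓ gt sel rt w y v := by
  rcases dn_or hL ⟨hne, x, h1, h2⟩ with h | h
  · rcases ee_all' hK hO hS h hxy h2 h1 h4 h3 with h5 | h5 | h5 | h5
    · exact Or.inr (Or.inl h5)
    · exact Or.inl h5
    · exact Or.inr (Or.inr (Or.inr h5))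
    · exact Or.inr (Or.inr (Or.inl h5))
  · exact ee_all' hK hO hS h hxy h1 h2 h3 h4

include hK hO hS in
theorem ee_fix (hF : Fxd I κ FP FV) {v w : V} {x : P} (h : EE I κ ℓ gt sel rt v x w)
    (hx : FP x) : FV w := by
  have hw2 : I x w := (ee_inc hO hS h).2.1
  by_cases hw : κ w = true
  · exact hF.up x w hw2 hw hx
  have hw : κ w = false := by simpa using hw
  rcases h with h | h
  swap
  · have := (hS.mid _ _ h.2).2
    rw [hw] at this
    simp at this
  have hg := h.gt_ne hO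
  obtain ⟨h1, h2, h3, h4, h5, h6⟩ := h
  have hv : κ v = true := by
    have := h1.kne
    rw [hw] at this
    cases hh : κ v
    · rw [hh] at this
      exact (this rfl).elim
    · rfl
  have hfa : ∀ {y : V}, κ y ≠ κ v → κ y = false := by
    intro y hy
    rw [hv] at hy
    simpa using hy
  by_cases hz : ∃ y, sel v y
  · obtain ⟨y, hy⟩ := hz
    rcases hS.fixed v y x hy h2 hg hx with h7 | h7
    · exact (h4 h7).elim
    · exact (h5 h7).elim
  have hrF := hS.rootF v x hz h2 hg hx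
  obtain ⟨hr1, hr2⟩ := hS.root v x h2 hg
  have near : ∀ {p q : P} {c : V}, p ≠ q → I p v → I q v → Dn I κ ℓ c v → I p c → I q c →
      FP p → FP q → FV c := fun hpq hp hq hc hpc hqc hp' hq' =>
    hF.near v _ _ _ hv (hfa hc.kne) hpq hp hq hpc hqc hp' hq'
  have midl : ∀ {p m q : P} {c c' : V}, p ≠ q → I p v → I m v → I q v → Dn I κ ℓ c v →
      Dn I κ ℓ c' v → I p c → I m c → I m c' → I q c' → FP p → FP q → FP m :=
    fun hpq hp hm hq hc hc' h1 h2 h3 h4 h5 h6 =>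
      hF.mid v _ _ _ _ _ hv (hfa hc.kne) (hfa hc'.kne) hpq hp hm hq h1 h2 h3 h4 h5 h6
  rcases h6 with h6 | ⟨h6, h7⟩
  · -- `x` is a mid panel
    have hmx : Mid I κ gt v x := ⟨h2, hg, by rw [h6]; exact h1.kne⟩
    by_cases hl : ∃ p, Low I κ gt v p
    · obtain ⟨p₀, hp₀⟩ := hl
      obtain ⟨p, hp1, hp2⟩ := hO.dn_low _ _ p₀ hp₀ h1
      have hxp : x ≠ p := by
        rintro rfl
        exact hmx.2.2 hp1.2.2
      have fin : FP p → FV w := fun hp => near hxp h2 hp1.1 h1 h3 hp2 hx hp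
      rcases mid_of hO hr1 hr2 with h8 | ⟨h8, h9, h10⟩
      · by_cases h9 : rt v = p
        · exact fin (h9 ▸ hrF)
        · obtain ⟨z, hz1, hz2, hz3⟩ := hO.low2 v p (rt v) hp1 h8 (Ne.symm h9)
          exact fin (midl h4 h2 hp1.1 hr1 h1 (hO.low_dn _ _ _ hp1 hz1 hz3) h3 hp2 hz1 hz2 hx hrF)
      · by_cases h11 : I p (gt (rt v))
        · exact fin (midl h4 h2 hp1.1 hr1 h1 h9 h3 hp2 h11 h10 hx hrF)
        · obtain ⟨q, hq1, hq2⟩ := hO.dn_low _ _ p₀ hp₀ h9
          have hpq : p ≠ q := by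
            rintro rfl
            exact h11 hq2
          by_contra hcon
          refine hS.hz v x hz ⟨⟨hv, p, q, hpq, hp1, hq1, hmx, h8, by rw [h6]; exact hp2, hq2⟩,
            hx, hrF, fun s hs hsF => ?_⟩
          have hcase : s = p ∨ s = q := by
            rcases hO.low3 v s p q hs hp1 hq1 with h | h | h
            · exact Or.inl h
            · exact Or.inr h
            · exact (hpq h).elim
          rcases hcase with rfl | rfl
          · exact hcon (fin hsF)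
          · obtain ⟨z, hz1, hz2, hz3⟩ := hO.low2 v p s hp1 hq1 hpq
            have hxs : x ≠ s := by
              rintro rfl
              exact hmx.2.2 hq1.2.2
            exact hcon (fin (midl hxs h2 hp1.1 hq1.1 h1 (hO.low_dn _ _ _ hp1 hz1 hz3) h3 hp2 hz1
              hz2 hx hsF))
    · push Not at hl
      rcases mid_of hO hr1 hr2 with h8 | ⟨h8, h9, h10⟩
      · exact (hl _ h8).elim
      · have h11 := hO.dn_one _ _ v hl h9 h1
        rw [h11] at h10
        exact near h4 h2 hr1 h1 h3 h10 hx hrF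
  · -- `x` is a low panel
    rcases h7 with h7 | ⟨q, h7, h8, h9, h10⟩
    · exact near h4 h2 hr1 h1 h3 h7 hx hrF
    · rcases mid_of hO hr1 hr2 with h11 | ⟨h11, h12, h13⟩
      · obtain ⟨z, hz1, hz2, hz3⟩ := hO.low2 v x (rt v) h6 h11 h4
        exact (h10 ⟨z, hO.low_dn _ _ _ h6 hz1 hz3, hz1, hz2⟩).elim
      · obtain ⟨q', hq1, hq2⟩ := hO.dn_low _ _ x h6 h12
        have hq' : q' ≠ x := by
          rintro rfl
          exact h10 ⟨_, h12, hq2, h13⟩
        have : q' = q := by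
          rcases hO.low3 v x q' q h6 hq1 h7 with h | h | h
          · exact (hq' h.symm).elim
          · exact (h8 h.symm).elim
          · exact h
        subst this
        exact near (Ne.symm h8) h2 h7.1 h1 h3 h9 hx
          (midl h4 h2 h7.1 hr1 h1 h12 h3 h9 hq2 h13 hx hrF)

end sl

end

end Pool.Agent.Helper13.LT
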