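import Pool.Agent.Helper13.LT.Span

/-!
# Kite complexes: the order of the incidences
-/

set_option autoImplicit false

namespace Pool.Agent.Helper13.LT

section

variable {V P : Type} {I : P → V → Prop} {κ : V → Bool} {ℓ : V → ℕ} {gt : P → V} {v₀ : V}
  {FP : P → Prop} {FV : V → Prop} {sel : V → P → Prop} {rt : V → P}

/-- Keys. -/
abbrev Key : Type 1 := ℕ ×ₗ (Ordinal.{0} ×ₗ ℕ)

/-- The key with the given components. -/
def mk3 (a : ℕ) (b : Ordinal.{0}) (c : ℕ) : Key := toLex (a, toLex (b, c))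

theorem mk3_lt {a a' : ℕ} {b b' : Ordinal.{0}} {c c' : ℕ}
    (h : a < a' ∨ (a = a' ∧ (b < b' ∨ (b = b' ∧ c < c')))) : mk3 a b c < mk3 a' b' c' := by
  rw [mk3, mk3, Prod.Lex.toLex_lt_toLex]
  rcases h with h | ⟨h1, h2⟩
  · exact Or.inl h
  · refine Or.inr ⟨h1, ?_⟩
    simp only
    rw [Prod.Lex.toLex_lt_toLex]
    exact h2

open Classical in
variable (I κ ℓ gt rt) in
/-- The third component. -/
noncomputable def lv (v : V) (x : P) : ℕ :=
  if Low I κ gt v x then (if ∃ w', Dn I κ ℓ w' v ∧ I x w' ∧ I (rt v) w' then 0 else 1) else 2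

theorem lv_le (v : V) (x : P) : lv I κ ℓ gt rt v x ≤ 2 := by
  rw [lv]
  split_ifs <;> omega

theorem lv_low {v : V} {x : P} (h : Low I κ gt v x) : lv I κ ℓ gt rt v x ≤ 1 := by
  rw [lv, if_pos h]
  split_ifs <;> omega

theorem lv_mid {v : V} {x : P} (h : ¬ Low I κ gt v x) : lv I κ ℓ gt rt v x = 2 := by
  rw [lv, if_neg h]

open Classical in
variable (I κ ℓ gt sel rt) in
/-- The keys of the incidences. -/
noncomputable def ky (s : P → V) (μ : V → Ordinal.{0}) (p : V × P) : Key :=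
  if gt p.2 = p.1 ∧ ∃ v', sel v' p.2 then mk3 (ℓ (s p.2)) (μ (s p.2)) 3
  else mk3 (ℓ p.1) (μ p.1) (lv I κ ℓ gt rt p.1 p.2)

section sl

variable (hK : KC I κ) (hO : Loc I κ ℓ gt) (hS : Sl I κ gt FP sel rt) {s : P → V}
  {μ : V → Ordinal.{0}} (hs : ∀ x v', sel v' x → s x = v')
  (hμ : ∀ v v' x, sel v' x → I x v → v ≠ v' → κ v = true → μ v' < μ v)

include hO hS hs hμ in
theorem lowkey {v w : V} {x : P} (h : Dn I κ ℓ w v) (hv : I x v) (hn : ¬ sel v x)
    (c : ℕ) : ky I κ ℓ gt sel rt s μ (w, x) < mk3 (ℓ v) (μ v) c := by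
  classical
  by_cases h1 : gt x = w ∧ ∃ v', sel v' x
  · rw [ky, if_pos h1]
    obtain ⟨h2, v', h3⟩ := h1
    have hne : v ≠ v' := by
      rintro rfl
      exact hn h3
    obtain ⟨h4, h5⟩ := hS.mid _ _ h3
    have h6 := hO.dn_lev _ _ (hO.mid_dn _ _ h4).1
    have h7 := hO.dn_lev _ _ h
    have h8 : κ v = true := by
      rw [← h5]
      refine bool_eq (c := κ w) (Ne.symm h.kne) ?_
      rw [← h2]
      exact Ne.symm h4.2.2
    refine mk3_lt (Or.inr ⟨?_, Or.inl ?_⟩)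
    · rw [hs x v' h3]
      rw [h2] at h6
      omega
    · rw [hs x v' h3]
      exact hμ v v' x h3 hv hne h8
  · rw [ky, if_neg h1]
    exact mk3_lt (Or.inl h.2)

include hK hO hS in
theorem EU.nosel {v w : V} {x y : P} (h : EU I κ ℓ gt sel rt v x w) (hyx : y ≠ x) (h1 : I y v)
    (h2 : I y w) : ¬ sel v y := by
  intro h3
  obtain ⟨p, q, hpq, hp, hq, hpg, hr, hqg⟩ := hS.two _ _ h3
  obtain ⟨hm, -⟩ := hS.mid _ _ h3
  have e1 := mid_unique hO h1 hm.2.2 h.1 h2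
  rw [e1] at hpg
  have hyp : y ≠ p := by
    rintro rfl
    exact hm.2.2 hp.2.2
  have hyq : y ≠ q := by
    rintro rfl
    exact hm.2.2 hq.2.2
  -- the panels of the kite are `y` and `p`
  have hxp : x = p := by
    rcases three hK h.1.kne h2 h1 hpg hp.1 h.2.2.1 h.2.1 hyp with h4 | h4
    · exact (hyx h4.symm).elim
    · exact h4
  subst hxp
  rcases h.2.2.2.2.2 with h4 | ⟨-, h4 | ⟨q', h5, h6, h7, -⟩⟩
  · apply h.1.kne
    rw [← h4]
    exact hp.2.2
  · have e2 := mid_unique hO hr.1 hr.2.2 h.1 h4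
    rw [e2] at hqg
    rcases three hK h.1.kne h2 h1 hpg hp.1 hqg hq.1 hyp with h5 | h5
    · exact hyq h5.symm
    · exact hpq h5.symm
  · rcases three hK h.1.kne h2 h1 hpg hp.1 h7 h5.1 hyp with h8 | h8
    · rw [h8] at h5
      exact hm.2.2 h5.2.2
    · exact h6 h8

include hK hO hS in
/-- The other panel of the kite. -/
theorem EU.other {v w : V} {x y : P} (h : EU I κ ℓ gt sel rt v x w) (hyx : y ≠ x) (h1 : I y v)
    (h2 : I y w) (hr : y ≠ rt v) : lv I κ ℓ gt rt v y < lv I κ ℓ gt rt v x := by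
  have hg := h.gt_ne hO
  obtain ⟨hr1, hr2⟩ := hS.root v x h.2.1 hg
  have hnr : ¬ I (rt v) w := by
    intro h3
    rcases three hK h.1.kne h.2.2.1 h.2.1 h2 h1 h3 hr1 (Ne.symm hyx) with h4 | h4
    · exact h.2.2.2.1 h4.symm
    · exact hr h4.symm
  rcases h.2.2.2.2.2 with h3 | ⟨h3, h4 | ⟨q, h5, h6, h7, h8⟩⟩
  · have hx : ¬ Low I κ gt v x := fun h4 => h.1.kne (by rw [← h3]; exact h4.2.2)
    rw [lv_mid hx]
    rcases hO.dn_gt _ _ _ h.1 h2 h1 with h4 | h4
    · exfalso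
      have hl : ∀ p, ¬ Low I κ gt v p := by
        intro p hp
        obtain ⟨p', hp1, hp2⟩ := hO.dn_low _ _ p hp h.1
        rcases three hK h.1.kne h.2.2.1 h.2.1 h2 h1 hp2 hp1.1 (Ne.symm hyx) with h5 | h5
        · exact hx (h5 ▸ hp1)
        · rw [h5] at hp1
          exact h.1.kne (by rw [← h4]; exact hp1.2.2)
      rcases mid_of hO hr1 hr2 with h5 | ⟨h5, h6, h7⟩
      · exact hl _ h5
      · rw [hO.dn_one _ _ v hl h6 h.1] at h7
        exact hnr h7
    · have := lv_low (ℓ := ℓ) (rt := rt) h4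
      omega
  · exact (hnr h4).elim
  · have hq : q = y := by
      rcases three hK h.1.kne h.2.2.1 h.2.1 h2 h1 h7 h5.1 (Ne.symm hyx) with h9 | h9
      · exact (h6 h9).elim
      · exact h9
    subst hq
    have e1 : lv I κ ℓ gt rt v x = 1 := by rw [lv, if_pos h3, if_neg h8]
    have e2 : lv I κ ℓ gt rt v q = 0 := by
      rw [lv, if_pos h5, if_pos]
      rcases mid_of hO hr1 hr2 with h9 | ⟨h9, h10, h11⟩
      · rcases hO.low3 v x q (rt v) h3 h5 h9 with h12 | h12 | h12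
        · exact (hyx h12.symm).elim
        · exact (h.2.2.2.1 h12).elim
        · exact (hr h12).elim
      · obtain ⟨q', hq1, hq2⟩ := hO.dn_low _ _ x h3 h10
        have hq' : q' ≠ x := by
          rintro rfl
          exact h8 ⟨_, h10, hq2, h11⟩
        have : q' = q := by
          rcases hO.low3 v x q' q h3 hq1 h5 with h12 | h12 | h12
          · exact (hq' h12.symm).elim
          · exact (hyx h12.symm).elim
          · exact h12
        subst this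
        exact ⟨_, h10, hq2, h11⟩
    omega

include hK hO hS hs hμ in
theorem ee_lower {v w : V} {x y : P} (h : EE I κ ℓ gt sel rt v x w) (hyx : y ≠ x) (h1 : I y v)
    (h2 : I y w) :
    (TT I gt sel rt w x ∨ ky I κ ℓ gt sel rt s μ (w, x) < ky I κ ℓ gt sel rt s μ (v, x)) ∧
    (TT I gt sel rt v y ∨ ky I κ ℓ gt sel rt s μ (v, y) < ky I κ ℓ gt sel rt s μ (v, x)) ∧
    (TT I gt sel rt w y ∨ ky I κ ℓ gt sel rt s μ (w, y) < ky I κ ℓ gt sel rt s μ (v, x)) := by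
  classical
  rcases h with h | ⟨rfl, h⟩
  · have hg := h.gt_ne hO
    have e1 : ky I κ ℓ gt sel rt s μ (v, x) = mk3 (ℓ v) (μ v) (lv I κ ℓ gt rt v x) := by
      rw [ky, if_neg (fun h3 => hg h3.1)]
    have hgy : gt y ≠ v := by
      rcases hO.dn_gt _ _ _ h.1 h2 h1 with h3 | h3
      · rw [h3]
        exact h.1.ne
      · exact h3.2.1
    have e2 : ky I κ ℓ gt sel rt s μ (v, y) = mk3 (ℓ v) (μ v) (lv I κ ℓ gt rt v y) := by
      rw [ky, if_neg (fun h3 => hgy h3.1)]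
    rw [e1, e2]
    refine ⟨Or.inr (lowkey hO hS hs hμ h.1 h.2.1 h.2.2.2.2.1 _), ?_,
      Or.inr (lowkey hO hS hs hμ h.1 h1 (h.nosel hK hO hS hyx h1 h2) _)⟩
    by_cases hr : y = rt v
    · exact Or.inl ⟨h1, Or.inl ⟨hgy, Or.inl hr⟩⟩
    · exact Or.inr (mk3_lt (Or.inr ⟨rfl, Or.inr ⟨rfl, h.other hK hO hS hyx h1 h2 hr⟩⟩))
  · obtain ⟨p, q, hpq, hp, hq, hpg, hr, hqg⟩ := hS.two _ _ h
    obtain ⟨hm, -⟩ := hS.mid _ _ h
    obtain ⟨hd, hxg⟩ := hO.mid_dn _ _ hm
    have hxp : x ≠ p := by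
      rintro rfl
      exact hm.2.2 hp.2.2
    have hyp : y = p := by
      rcases three hK hd.kne hxg hm.1 hpg hp.1 h1 h2 hxp with h3 | h3
      · exact (hyx h3).elim
      · exact h3
    subst hyp
    have e1 : ky I κ ℓ gt sel rt s μ (gt x, x) = mk3 (ℓ w) (μ w) 3 := by
      rw [ky, if_pos ⟨rfl, w, h⟩, hs x w h]
    have hgy : gt y ≠ gt x := fun h3 => hd.kne (by rw [← h3]; exact hp.2.2)
    have e2 : ky I κ ℓ gt sel rt s μ (gt x, y) =
        mk3 (ℓ (gt x)) (μ (gt x)) (lv I κ ℓ gt rt (gt x) y) := by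
      rw [ky, if_neg (fun h3 => hgy h3.1)]
    have e3 : ky I κ ℓ gt sel rt s μ (w, y) = mk3 (ℓ w) (μ w) (lv I κ ℓ gt rt w y) := by
      rw [ky, if_neg (fun h3 => hp.2.1 h3.1)]
    rw [e1, e2, e3]
    refine ⟨Or.inl ⟨hm.1, Or.inl ⟨hm.2.1, Or.inr h⟩⟩, Or.inr (mk3_lt (Or.inl hd.2)),
      Or.inr (mk3_lt (Or.inr ⟨rfl, Or.inr ⟨rfl, ?_⟩⟩))⟩
    have := lv_le (I := I) (κ := κ) (ℓ := ℓ) (gt := gt) (rt := rt) w y
    omega

end sl

/-- **Spanning trees and designated kites.** -/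
theorem exists_spn' (hK : KC I κ) (hL : Lev I κ v₀ ℓ gt) (hO : Loc I κ ℓ gt)
    (hF : Fxd I κ FP FV) : ∃ T r E, Spn I κ FP FV T r E := by
  classical
  rcases isEmpty_or_nonempty P with hP | hP
  · refine ⟨fun _ _ => False, fun _ _ => False, fun _ _ _ => False, ?_, ?_, ?_, ?_, ?_, ?_, ?_,
      ?_, ?_⟩
    · exact ⟨fun p => (hP.false p.2).elim⟩
    · exact fun _ x => (hP.false x).elim
    · exact fun _ x => (hP.false x).elim
    · exact fun _ x => (hP.false x).elim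
    · exact fun _ x => (hP.false x).elim
    · exact fun _ x => (hP.false x).elim
    · exact fun _ x => (hP.false x).elim
    · exact fun _ _ x => (hP.false x).elim
    · exact fun _ x => (hP.false x).elim
  obtain ⟨sel, rt, hS⟩ := exists_sl hO hF hK
  have hs : ∀ x, ∃ v, ∀ v', sel v' x → v = v' := by
    intro x
    by_cases h : ∃ v, sel v x
    · obtain ⟨v, hv⟩ := h
      exact ⟨v, fun v' h' => hS.inj _ _ _ hv h'⟩
    · exact ⟨v₀, fun v' h' => (h ⟨v', h'⟩).elim⟩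
  choose s hs using hs
  let R : V → V → Prop := fun v' v => ∃ x, sel v' x ∧ I x v ∧ v ≠ v' ∧ κ v = true
  have hwf : IsWellFounded V R := ⟨hS.wf⟩
  let μ : V → Ordinal.{0} := IsWellFounded.rank R
  have hμ : ∀ v v' x, sel v' x → I x v → v ≠ v' → κ v = true → μ v' < μ v :=
    fun v v' x h1 h2 h3 h4 => IsWellFounded.rank_lt_of_rel (r := R) ⟨x, h1, h2, h3, h4⟩
  refine ⟨TT I gt sel rt, fun p q => ky I κ ℓ gt sel rt s μ p < ky I κ ℓ gt sel rt s μ q,
    EE I κ ℓ gt sel rt, ?_, ?_, ?_, ?_, ?_, ?_, ?_, ?_, ?_⟩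
  · exact InvImage.wf _ (wellFounded_lt (α := Key))
  · exact fun v x h => h.1
  · exact fun v x w h => ee_inc hO hS h
  · exact fun v x w h => ee_not hO hS h
  · exact fun v x h1 h2 => ee_ex hK hO hS h1 h2
  · exact fun v x w w' h1 h2 => ee_un hK hO hS h1 h2
  · exact fun v x w y h1 h2 h3 h4 => ee_lower hK hO hS hs hμ h1 h2 h3 h4
  · exact fun v w x y h1 h2 h3 h4 h5 h6 => ee_all hK hL hO hS h1 h2 h3 h4 h5 h6
  · exact fun v x w h1 h2 => ee_fix hK hO hS hF h1 h2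

end

end Pool.Agent.Helper13.LT
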